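import Mathlib

/-! Two block triangular matrices that are conjugate over every commutative ring. -/

open Matrix

namespace Pool.Agent.H87.Comm

variable {R : Type*} [CommRing R]

/-- lower bidiagonal unipotent matrix -/
def S (R : Type*) [CommRing R] (m : ℕ) : Matrix (Fin m) (Fin m) R :=
  Matrix.of fun i j => if i = j then 1 else if (i : ℕ) = (j : ℕ) + 1 then 1 else 0

def a1 (R : Type*) [CommRing R] : Matrix (Fin 2) (Fin 2) R := !![0, -1; 1, 1]

def a1' (R : Type*) [CommRing R] : Matrix (Fin 2) (Fin 2) R := !![1, 1; -1, 0]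

def P (R : Type*) [CommRing R] : Matrix (Fin 2) (Fin 2) R := !![0, 1; 1, 0]

theorem a1_sq : a1 R * a1 R - a1 R + 1 = 0 := by
  ext i j
  fin_cases i <;> fin_cases j <;> simp [a1, Matrix.mul_apply, Fin.sum_univ_two]

theorem a1'_sq : a1' R * a1' R - a1' R + 1 = 0 := by
  ext i j
  fin_cases i <;> fin_cases j <;> simp [a1', Matrix.mul_apply, Fin.sum_univ_two]

theorem P_sq : P R * P R = 1 := by
  ext i j
  fin_cases i <;> fin_cases j <;> simp [P, Matrix.mul_apply, Fin.sum_univ_two]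

theorem a1_P : a1 R * P R = P R * a1' R := by
  ext i j
  fin_cases i <;> fin_cases j <;> simp [P, a1, a1', Matrix.mul_apply, Fin.sum_univ_two]

theorem a1'_mul_a1 : a1' R * a1 R = 1 := by
  ext i j
  fin_cases i <;> fin_cases j <;> simp [a1, a1', Matrix.mul_apply, Fin.sum_univ_two]

theorem a1_mul_a1' : a1 R * a1' R = 1 := by
  ext i j
  fin_cases i <;> fin_cases j <;> simp [a1, a1', Matrix.mul_apply, Fin.sum_univ_two]

/-- reversal -/
def J (R : Type*) [CommRing R] (m : ℕ) : Matrix (Fin m) (Fin m) R :=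
  (Fin.revPerm (n := m)).toPEquiv.toMatrix

theorem J_sq (m : ℕ) : J R m * J R m = 1 := by
  rw [J, PEquiv.toMatrix_toPEquiv_mul]
  ext i j
  simp [PEquiv.toMatrix_apply, Matrix.one_apply, Fin.ext_iff]

theorem S_J (m : ℕ) : S R m * J R m = J R m * (S R m)ᵀ := by
  rw [J, PEquiv.toMatrix_toPEquiv_mul, PEquiv.mul_toMatrix_toPEquiv]
  ext i j
  simp only [S, submatrix_apply, id_eq, Matrix.of_apply, transpose_apply, Fin.revPerm_symm,
    Fin.revPerm_apply, Fin.ext_iff, Fin.val_rev]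
  have hi := i.2
  have hj := j.2
  split_ifs <;> first | rfl | (exfalso; omega)

/-- Solving the Sylvester equation. -/
theorem sylvester {m : ℕ} (a : Matrix (Fin 2) (Fin 2) R) (ha : a * a - a + 1 = 0)
    (T U : Matrix (Fin m) (Fin m) R) (hU : (T * T - T + 1) * U = 1) (hc : T * U = U * T)
    (Q : Matrix (Fin 2) (Fin m) R) : ∃ X : Matrix (Fin 2) (Fin m) R, a * X + Q = X * T := by
  refine ⟨(a * Q - Q + Q * T) * U, ?_⟩
  have ha' : a * a = a - 1 := by
    have : a * a = (a * a - a + 1) + (a - 1) := by abel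
    rw [this, ha, zero_add]
  have h1 : a * (a * Q - Q + Q * T) - (a * Q - Q + Q * T) * T = -(Q * (T * T - T + 1)) := by
    have : a * (a * Q - Q + Q * T) = (a * a) * Q - a * Q + a * Q * T := by
      rw [Matrix.mul_add, Matrix.mul_sub, ← Matrix.mul_assoc, ← Matrix.mul_assoc]
    rw [this, ha']
    simp only [Matrix.sub_mul, Matrix.add_mul, Matrix.mul_add, Matrix.mul_sub, Matrix.one_mul,
      Matrix.mul_one, Matrix.mul_assoc]
    abel
  have h2 : (a * Q - Q + Q * T) * U * T = (a * Q - Q + Q * T) * T * U := by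
    rw [Matrix.mul_assoc, ← hc, ← Matrix.mul_assoc]
  have h3 : a * ((a * Q - Q + Q * T) * U) - (a * Q - Q + Q * T) * U * T = -Q := by
    rw [h2, ← Matrix.mul_assoc, ← Matrix.sub_mul, h1, Matrix.neg_mul, Matrix.mul_assoc, hU,
      Matrix.mul_one]
  have h4 : a * ((a * Q - Q + Q * T) * U) = (a * Q - Q + Q * T) * U * T - Q := by
    have := h3
    rw [sub_eq_iff_eq_add] at this
    rw [this]; abel
  rw [h4]; abel

theorem exists_U (m : ℕ) : ∃ U : Matrix (Fin m) (Fin m) R,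
    ((S R m)ᵀ * (S R m)ᵀ - (S R m)ᵀ + 1) * U = 1 ∧ (S R m)ᵀ * U = U * (S R m)ᵀ := by
  set N : Matrix (Fin m) (Fin m) R := (S R m)ᵀ - 1 with hN
  have hS : (S R m)ᵀ = 1 + N := by rw [hN]; abel
  have hnil : IsNilpotent N := by
    refine ⟨m, ?_⟩
    have key : ∀ k : ℕ, ∀ i j : Fin m, (j : ℕ) < i + k → (N ^ k) i j = 0 := by
      intro k
      induction k with
      | zero =>
        intro i j h
        rw [pow_zero, Matrix.one_apply_ne]
        intro h'
        rw [h'] at h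
        omega
      | succ k ih =>
        intro i j h
        rw [pow_succ, Matrix.mul_apply]
        apply Finset.sum_eq_zero
        intro l _
        by_cases hl : (l : ℕ) < i + k
        · rw [ih i l hl, zero_mul]
        · have : N l j = 0 := by
            rw [hN, Matrix.sub_apply, transpose_apply, S, Matrix.of_apply]
            by_cases h1 : j = l
            · rw [if_pos h1, h1, Matrix.one_apply_eq, sub_self]
            · rw [if_neg h1, Matrix.one_apply_ne (Ne.symm h1), sub_zero, if_neg]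
              omega
          rw [this, mul_zero]
    ext i j
    exact key m i j (by omega)
  have hcN : Commute N (1 + N) := (Commute.one_right N).add_right (Commute.refl N)
  have hu : IsUnit (1 + (N + N * N)) := by
    apply IsNilpotent.isUnit_one_add
    have : N + N * N = N * (1 + N) := by rw [mul_add, mul_one]
    rw [this]
    exact hcN.isNilpotent_mul_right hnil
  obtain ⟨u, hu⟩ := hu
  have hg : (S R m)ᵀ * (S R m)ᵀ - (S R m)ᵀ + 1 = (u : Matrix (Fin m) (Fin m) R) := by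
    rw [hu, hS]
    noncomm_ring
  refine ⟨((u⁻¹ : (Matrix (Fin m) (Fin m) R)ˣ) : Matrix (Fin m) (Fin m) R), ?_, ?_⟩
  · rw [hg]; exact u.mul_inv
  · have hc : Commute ((S R m)ᵀ) (u : Matrix (Fin m) (Fin m) R) := by
      rw [← hg]
      have h1 : Commute ((S R m)ᵀ) ((S R m)ᵀ) := Commute.refl _
      exact ((h1.mul_right h1).sub_right h1).add_right (Commute.one_right _)
    exact hc.units_inv_right

/-- The two matrices. -/
def Z {m : ℕ} (Q : Matrix (Fin 2) (Fin m) R) : Matrix (Fin 2 ⊕ Fin m) (Fin 2 ⊕ Fin m) R :=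
  fromBlocks (a1' R) Q 0 (S R m)ᵀ

def Y {m : ℕ} (L : Matrix (Fin m) (Fin 2) R) : Matrix (Fin 2 ⊕ Fin m) (Fin 2 ⊕ Fin m) R :=
  fromBlocks (a1 R) 0 L (S R m)

theorem conj_YZ {m : ℕ} (Q : Matrix (Fin 2) (Fin m) R) (L : Matrix (Fin m) (Fin 2) R) :
    ∃ B B' : Matrix (Fin 2 ⊕ Fin m) (Fin 2 ⊕ Fin m) R, B * B' = 1 ∧ B' * B = 1 ∧
      Y L * B = B * Z Q := by
  obtain ⟨U, hU, hcU⟩ := exists_U (R := R) m
  obtain ⟨X, hX⟩ := sylvester (a1' R) a1'_sq ((S R m)ᵀ) U hU hcU Q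
  obtain ⟨X2, hX2⟩ := sylvester ((a1 R)ᵀ) (by
    have := congrArg Matrix.transpose (a1_sq (R := R))
    simpa [Matrix.transpose_mul] using this) ((S R m)ᵀ) U hU hcU (-Lᵀ)
  -- `L + S X2ᵀ = X2ᵀ a1`
  have hL : L + S R m * X2ᵀ = X2ᵀ * a1 R := by
    have := congrArg Matrix.transpose hX2
    simp only [Matrix.transpose_add, Matrix.transpose_mul, Matrix.transpose_transpose,
      Matrix.transpose_neg] at this
    rw [← this]; abel
  have d1 : fromBlocks (P R) 0 0 (J R m) * fromBlocks (P R) 0 0 (J R m) = 1 := by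
    rw [fromBlocks_multiply]
    simp only [P_sq, J_sq, Matrix.mul_zero, Matrix.zero_mul, add_zero, zero_add]
    exact fromBlocks_one
  have u1 : (fromBlocks 1 0 X2ᵀ 1 : Matrix (Fin 2 ⊕ Fin m) (Fin 2 ⊕ Fin m) R) *
      fromBlocks 1 0 (-X2ᵀ) 1 = 1 := by
    rw [fromBlocks_multiply]
    simp
  have u2 : (fromBlocks 1 0 (-X2ᵀ) 1 : Matrix (Fin 2 ⊕ Fin m) (Fin 2 ⊕ Fin m) R) *
      fromBlocks 1 0 X2ᵀ 1 = 1 := by
    rw [fromBlocks_multiply]
    simp
  have v1 : (fromBlocks 1 (-X) 0 1 : Matrix (Fin 2 ⊕ Fin m) (Fin 2 ⊕ Fin m) R) *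
      fromBlocks 1 X 0 1 = 1 := by
    rw [fromBlocks_multiply]
    simp
  have v2 : (fromBlocks 1 X 0 1 : Matrix (Fin 2 ⊕ Fin m) (Fin 2 ⊕ Fin m) R) *
      fromBlocks 1 (-X) 0 1 = 1 := by
    rw [fromBlocks_multiply]
    simp
  have e1 : Y L * fromBlocks 1 0 X2ᵀ 1 = fromBlocks 1 0 X2ᵀ 1 * fromBlocks (a1 R) 0 0 (S R m) := by
    rw [Y, fromBlocks_multiply, fromBlocks_multiply]
    simp [hL]
  have e2 : fromBlocks (a1 R) 0 0 (S R m) * fromBlocks (P R) 0 0 (J R m) =
      fromBlocks (P R) 0 0 (J R m) * fromBlocks (a1' R) 0 0 ((S R m)ᵀ) := by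
    rw [fromBlocks_multiply, fromBlocks_multiply]
    simp [a1_P, S_J]
  have e3 : fromBlocks (a1' R) 0 0 ((S R m)ᵀ) * fromBlocks 1 (-X) 0 1 =
      fromBlocks 1 (-X) 0 1 * Z Q := by
    rw [Z, fromBlocks_multiply, fromBlocks_multiply]
    have : -(a1' R * X) = Q + -(X * (S R m)ᵀ) := by rw [← hX]; abel
    simp [this]
  refine ⟨fromBlocks 1 0 X2ᵀ 1 * fromBlocks (P R) 0 0 (J R m) * fromBlocks 1 (-X) 0 1,
    fromBlocks 1 X 0 1 * fromBlocks (P R) 0 0 (J R m) * fromBlocks 1 0 (-X2ᵀ) 1, ?_, ?_, ?_⟩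
  · calc _ = fromBlocks 1 0 X2ᵀ 1 * (fromBlocks (P R) 0 0 (J R m) *
          (fromBlocks 1 (-X) 0 1 * fromBlocks 1 X 0 1) * fromBlocks (P R) 0 0 (J R m)) *
          fromBlocks 1 0 (-X2ᵀ) 1 := by simp only [Matrix.mul_assoc]
      _ = 1 := by rw [v1, Matrix.mul_one, d1, Matrix.mul_one, u1]
  · calc _ = fromBlocks 1 X 0 1 * (fromBlocks (P R) 0 0 (J R m) *
          (fromBlocks 1 0 (-X2ᵀ) 1 * fromBlocks 1 0 X2ᵀ 1) * fromBlocks (P R) 0 0 (J R m)) *
          fromBlocks 1 (-X) 0 1 := by simp only [Matrix.mul_assoc]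
      _ = 1 := by rw [u2, Matrix.mul_one, d1, Matrix.mul_one, v2]
  · calc _ = (Y L * fromBlocks 1 0 X2ᵀ 1) * fromBlocks (P R) 0 0 (J R m) *
          fromBlocks 1 (-X) 0 1 := by simp only [Matrix.mul_assoc]
      _ = fromBlocks 1 0 X2ᵀ 1 * (fromBlocks (a1 R) 0 0 (S R m) * fromBlocks (P R) 0 0 (J R m)) *
          fromBlocks 1 (-X) 0 1 := by rw [e1]; simp only [Matrix.mul_assoc]
      _ = fromBlocks 1 0 X2ᵀ 1 * fromBlocks (P R) 0 0 (J R m) *
          (fromBlocks (a1' R) 0 0 ((S R m)ᵀ) * fromBlocks 1 (-X) 0 1) := by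
            rw [e2]; simp only [Matrix.mul_assoc]
      _ = _ := by rw [e3]; simp only [Matrix.mul_assoc]

theorem Z_unit {m : ℕ} (Q : Matrix (Fin 2) (Fin m) R) : IsUnit (Z Q) := by
  rw [Z, isUnit_fromBlocks_zero₂₁]
  refine ⟨IsUnit.of_mul_eq_one _ a1'_mul_a1, ?_⟩
  rw [Matrix.isUnit_iff_isUnit_det, Matrix.det_of_isUpperTriangular]
  · simp [S]
  · intro i j h
    simp only [id_eq] at h
    rw [transpose_apply, S, Matrix.of_apply, if_neg, if_neg]
    · have : (j : ℕ) < i := h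
      omega
    · intro h'; rw [h'] at h; exact lt_irrefl _ h

end Pool.Agent.H87.Comm
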