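import Pool.Agent.H87.Comm.Blocks

/-! Cyclic matrices of determinant one. -/

open Matrix Finset

namespace Pool.Agent.H87.Comm

variable {R : Type*} [CommRing R]

/-- Horner vectors `C^k v + φ_0 C^(k-1) v + ... + φ_(k-1) v`. -/
def Hv {n : ℕ} (C : Matrix (Fin n) (Fin n) R) (φ : ℕ → R) (v : Fin n → R) (k : ℕ) : Fin n → R :=
  (C ^ k) *ᵥ v + ∑ i ∈ range k, φ i • ((C ^ (k - 1 - i)) *ᵥ v)

theorem Hv_zero {n : ℕ} (C : Matrix (Fin n) (Fin n) R) (φ : ℕ → R) (v : Fin n → R) :
    Hv C φ v 0 = v := by simp [Hv]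

theorem Hv_succ {n : ℕ} (C : Matrix (Fin n) (Fin n) R) (φ : ℕ → R) (v : Fin n → R) (k : ℕ) :
    Hv C φ v (k + 1) = C *ᵥ Hv C φ v k + φ k • v := by
  rw [Hv, Hv, sum_range_succ, mulVec_add, mulVec_mulVec, ← pow_succ', mulVec_sum]
  have h1 : ∀ i ∈ range k, φ i • ((C ^ (k + 1 - 1 - i)) *ᵥ v) =
      C *ᵥ (φ i • ((C ^ (k - 1 - i)) *ᵥ v)) := by
    intro i hi
    have hi' := mem_range.1 hi
    rw [mulVec_smul, mulVec_mulVec, ← pow_succ']
    congr 3
    omega
  rw [sum_congr rfl h1]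
  have h2 : C ^ (k + 1 - 1 - k) *ᵥ v = v := by
    have : k + 1 - 1 - k = 0 := by omega
    rw [this, pow_zero, one_mulVec]
  rw [h2, add_assoc]

theorem Hv_top {n : ℕ} [Nontrivial R] (C : Matrix (Fin n) (Fin n) R) (v : Fin n → R) :
    Hv C (fun i => C.charpoly.coeff (n - 1 - i)) v n = 0 := by
  have h := Matrix.aeval_self_charpoly C
  have hd : C.charpoly.natDegree = n := by
    rw [Matrix.charpoly_natDegree_eq_dim, Fintype.card_fin]
  have hm : C.charpoly.coeff n = 1 := by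
    have := Matrix.charpoly_monic C
    rw [Polynomial.Monic, Polynomial.leadingCoeff, hd] at this
    exact this
  rw [Polynomial.aeval_eq_sum_range, hd, sum_range_succ, hm, one_smul] at h
  have h2 := congrArg (fun M => M *ᵥ v) h
  simp only [add_mulVec, zero_mulVec, sum_mulVec, smul_mulVec] at h2
  rw [Hv, ← sum_range_reflect]
  rw [← h2, add_comm]
  congr 1
  apply sum_congr rfl
  intro i hi
  have hi' := mem_range.1 hi
  have e1 : n - 1 - (n - 1 - i) = i := by omega
  rw [e1]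

/-- the twisting vector -/
def wv {n : ℕ} (C : Matrix (Fin n) (Fin n) R) (φ : ℕ → R) (v : Fin n → R) : Fin n → R :=
  v + (1 - φ 0) • (C *ᵥ v)

def qv {n : ℕ} (C : Matrix (Fin n) (Fin n) R) (φ : ℕ → R) (v : Fin n → R) (i : ℕ) : Fin n → R :=
  C *ᵥ Hv C φ v (i + 1) + ((-1 : R) ^ i) • wv C φ v

def W {n : ℕ} (C : Matrix (Fin n) (Fin n) R) (φ : ℕ → R) (v : Fin n → R) (m : ℕ) :
    Matrix (Fin n) (Fin 2 ⊕ Fin m) R :=
  Matrix.of fun r c => Sum.elim (fun j => (![C *ᵥ v + v, C *ᵥ v] : Fin 2 → Fin n → R) j)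
    (fun k : Fin m => qv C φ v k) c r

theorem W_mulVec {n : ℕ} (C : Matrix (Fin n) (Fin n) R) (φ : ℕ → R) (v : Fin n → R) (m : ℕ)
    (z : Fin 2 ⊕ Fin m → R) :
    W C φ v m *ᵥ z = z (Sum.inl 0) • (C *ᵥ v + v) + z (Sum.inl 1) • (C *ᵥ v) +
      ∑ k : Fin m, z (Sum.inr k) • qv C φ v k := by
  ext r
  simp only [mulVec, dotProduct, Fintype.sum_sum_type, Fin.sum_univ_two, W, Matrix.of_apply,
    Sum.elim_inl, Sum.elim_inr, Pi.add_apply, Pi.smul_apply, Finset.sum_apply, smul_eq_mul]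
  congr 1
  · simp [mulVec, dotProduct]; ring
  · apply sum_congr rfl; intro k _; ring

theorem sum_S {V : Type*} [AddCommGroup V] [Module R V] {m : ℕ} (g : ℕ → V) (i : Fin m) :
    ∑ k : Fin m, (S R m k i) • g k = g i + if (i : ℕ) + 1 < m then g (i + 1) else 0 := by
  have h : ∀ k : Fin m, (S R m k i) • g k =
      (if k = i then g k else 0) + (if (k : ℕ) = i + 1 then g k else 0) := by
    intro k
    rw [S, Matrix.of_apply]
    by_cases h1 : k = i
    · have h2 : ¬ ((k : ℕ) = i + 1) := by rw [h1]; omega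
      rw [if_pos h1, if_pos h1, if_neg h2, one_smul, add_zero]
    · rw [if_neg h1, if_neg h1, zero_add]
      split_ifs
      · rw [one_smul]
      · rw [zero_smul]
  simp_rw [h]
  rw [sum_add_distrib, sum_ite_eq' univ i (fun k => g (k : ℕ)), if_pos (mem_univ i)]
  congr 1
  split_ifs with h1
  · rw [sum_eq_single (⟨i + 1, h1⟩ : Fin m)]
    · simp
    · intro k _ hk
      rw [if_neg]
      intro h2
      exact hk (Fin.ext h2)
    · intro h2; exact absurd (mem_univ _) h2
  · apply sum_eq_zero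
    intro k _
    rw [if_neg]
    have := k.2
    omega

theorem sum_ST {V : Type*} [AddCommGroup V] [Module R V] {m : ℕ} (g : ℕ → V) (i : Fin m) :
    ∑ k : Fin m, ((S R m)ᵀ k i) • g k = g i + if 0 < (i : ℕ) then g (i - 1) else 0 := by
  have h : ∀ k : Fin m, ((S R m)ᵀ k i) • g k =
      (if k = i then g k else 0) + (if (k : ℕ) + 1 = i then g k else 0) := by
    intro k
    rw [transpose_apply, S, Matrix.of_apply]
    by_cases h1 : k = i
    · have h2 : ¬ ((k : ℕ) + 1 = i) := by rw [h1]; omega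
      rw [if_pos h1.symm, if_pos h1, if_neg h2, one_smul, add_zero]
    · rw [if_neg (Ne.symm h1), if_neg h1, zero_add]
      by_cases h2 : (k : ℕ) + 1 = i
      · rw [if_pos h2.symm, if_pos h2, one_smul]
      · rw [if_neg (Ne.symm h2), if_neg h2, zero_smul]
  simp_rw [h]
  rw [sum_add_distrib, sum_ite_eq' univ i (fun k => g (k : ℕ)), if_pos (mem_univ i)]
  congr 1
  split_ifs with h1
  · rw [sum_eq_single (⟨i - 1, by have := i.2; omega⟩ : Fin m)]
    · rw [if_pos]
      simp only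
      omega
    · intro k _ hk
      rw [if_neg]
      intro h2
      apply hk
      apply Fin.ext
      simp only
      omega
    · intro h2; exact absurd (mem_univ _) h2
  · apply sum_eq_zero
    intro k _
    rw [if_neg]
    omega

/-- the coupling block of `Z` -/
def Qm (φ : ℕ → R) (m : ℕ) : Matrix (Fin 2) (Fin m) R :=
  Matrix.of fun j i =>
    let a : R := (if (i : ℕ) = 0 then φ 1 + φ 0 - 1 else φ (i + 1) + φ i) -
      (if (i : ℕ) + 1 = m then (-1) ^ m * (1 - φ 0) else 0)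
    if j = 0 then a else (if (i : ℕ) = 0 then φ 0 else 0) - a

/-- the coupling block of `Y` -/
def Lm (R : Type*) [CommRing R] (m : ℕ) : Matrix (Fin m) (Fin 2) R :=
  Matrix.of fun i j => if (i : ℕ) = 0 then (if j = 1 then 1 else 0) else 0

theorem relation {m : ℕ} (hm : 1 ≤ m) (C : Matrix (Fin (m + 2)) (Fin (m + 2)) R) (φ : ℕ → R)
    (v : Fin (m + 2) → R) (htop : Hv C φ v (m + 2) = 0) (hφ : φ (m + 1) = (-1) ^ m) :
    C * W C φ v m * Z (Qm φ m) = W C φ v m * Y (Lm R m) := by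
  set T := C.mulVecLin with hT
  have hTx : ∀ x, C *ᵥ x = T x := fun x => rfl
  have hH0 : Hv C φ v 0 = v := Hv_zero C φ v
  have hHs : ∀ k, Hv C φ v (k + 1) = T (Hv C φ v k) + φ k • v := fun k => Hv_succ C φ v k
  have hH1 : Hv C φ v 1 = T v + φ 0 • v := by rw [hHs 0, hH0]
  have hw : wv C φ v = v + (1 - φ 0) • T v := rfl
  have hq : ∀ i, qv C φ v i = T (Hv C φ v (i + 1)) + ((-1 : R) ^ i) • wv C φ v := fun i => rfl
  -- the last vector
  have hqm : qv C φ v m = ((-1 : R) ^ m * (1 - φ 0)) • T v := by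
    have h1 : T (Hv C φ v (m + 1)) = -((-1 : R) ^ m) • v := by
      have := hHs (m + 1)
      rw [htop, hφ] at this
      have h2 : T (Hv C φ v (m + 1)) = -((-1 : R) ^ m • v) := by
        rw [eq_neg_iff_add_eq_zero]; exact this.symm
      rw [h2, neg_smul]
    rw [hq, h1, hw]
    module
  have hqm' : ∀ k, k = m → qv C φ v k = ((-1 : R) ^ m * (1 - φ 0)) • T v := by
    intro k hk; rw [hk]; exact hqm
  -- recursion
  have hrec : ∀ i, qv C φ v (i + 2) = T (qv C φ v (i + 1)) - qv C φ v (i + 1) +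
      T (qv C φ v i) + (φ (i + 2) + φ (i + 1)) • T v := by
    intro i
    rw [hq (i + 2), hq (i + 1), hq i, hHs (i + 2), hHs (i + 1)]
    simp only [map_add, map_smul, pow_succ]
    module
  have hrec0 : qv C φ v 1 = T (qv C φ v 0) - qv C φ v 0 +
      ((φ 1 + φ 0 - 1) • T v + φ 0 • T (T v)) := by
    rw [hq 1, hq 0, hHs 1, hH1, hw]
    simp only [map_add, map_smul, pow_succ, pow_zero]
    module
  have hq0 : qv C φ v 0 = T (T v) + T v + v := by
    rw [hq 0, hH1, hw]
    simp only [map_add, map_smul, pow_zero]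
    module
  have hcol : ∀ (A : Matrix (Fin 2 ⊕ Fin m) (Fin 2 ⊕ Fin m) R) (r : Fin (m + 2))
      (c : Fin 2 ⊕ Fin m), (W C φ v m * A) r c = (W C φ v m *ᵥ (fun k => A k c)) r :=
    fun A r c => rfl
  have hcol2 : ∀ (A : Matrix (Fin 2 ⊕ Fin m) (Fin 2 ⊕ Fin m) R) (r : Fin (m + 2))
      (c : Fin 2 ⊕ Fin m), (C * W C φ v m * A) r c = (T (W C φ v m *ᵥ (fun k => A k c))) r := by
    intro A r c
    rw [Matrix.mul_assoc]
    rfl
  have key : ∀ c : Fin 2 ⊕ Fin m, T (W C φ v m *ᵥ (fun k => Z (Qm φ m) k c)) =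
      W C φ v m *ᵥ (fun k => Y (Lm R m) k c) := by
    intro c
    rw [W_mulVec, W_mulVec, hTx]
    rcases c with c | i
    · fin_cases c
      · simp only [Z, Y, fromBlocks_apply₁₁, fromBlocks_apply₂₁, a1', a1, Lm]
        simp
      · simp only [Z, Y, fromBlocks_apply₁₁, fromBlocks_apply₂₁, a1', a1, Lm]
        have hs : ∑ x : Fin m, (if (x : ℕ) = 0 then qv C φ v x else 0) = qv C φ v 0 := by
          rw [sum_eq_single (⟨0, hm⟩ : Fin m)]
          · simp
          · intro k _ hk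
            rw [if_neg]
            intro h; exact hk (Fin.ext h)
          · intro h; exact absurd (mem_univ _) h
        simp
        rw [hs, hq0]
        abel
    · simp only [Z, Y, fromBlocks_apply₁₂, fromBlocks_apply₂₂]
      rw [sum_S (fun k => qv C φ v k) i, sum_ST (fun k => qv C φ v k) i]
      simp only [Matrix.zero_apply, zero_smul, zero_add]
      have hQ1 : Qm φ m 1 i = (if (i : ℕ) = 0 then φ 0 else 0) - Qm φ m 0 i := by
        simp [Qm]
      have hQ0 : Qm φ m 0 i = (if (i : ℕ) = 0 then φ 1 + φ 0 - 1 else φ (i + 1) + φ i) -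
          (if (i : ℕ) + 1 = m then (-1) ^ m * (1 - φ 0) else 0) := by
        simp [Qm]
      rw [hQ1]
      generalize Qm φ m 0 i = a at hQ0 ⊢
      obtain ⟨i, hi⟩ := i
      simp only at hQ0 ⊢
      rcases i with _ | j
      · rw [if_pos rfl] at hQ0 ⊢
        rw [if_neg (lt_irrefl 0)]
        by_cases h1 : 0 + 1 < m
        · rw [if_neg (by omega)] at hQ0
          rw [if_pos h1, hQ0]
          simp only [zero_add]
          rw [hrec0]
          simp only [map_add, map_smul, map_zero]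
          module
        · have hm1 : m = 1 := by omega
          rw [if_pos (by omega)] at hQ0
          rw [if_neg h1, hQ0]
          have e : T (qv C φ v 0) = qv C φ v 1 + qv C φ v 0 -
              ((φ 1 + φ 0 - 1) • T v + φ 0 • T (T v)) := by rw [hrec0]; abel
          have e2 : qv C φ v 1 = ((-1 : R) ^ m * (1 - φ 0)) • T v := hqm' 1 hm1.symm
          simp only [map_add, map_smul]
          rw [e, e2, map_zero]
          module
      · rw [if_neg (by omega)] at hQ0 ⊢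
        rw [if_pos (by omega)]
        by_cases h1 : j + 1 + 1 < m
        · rw [if_neg (by omega)] at hQ0
          rw [if_pos h1, hQ0]
          simp only [add_tsub_cancel_right]
          rw [hrec j]
          simp only [map_add, map_smul]
          module
        · have hm1 : m = j + 2 := by omega
          rw [if_pos (by omega)] at hQ0
          rw [if_neg h1, hQ0]
          simp only [add_tsub_cancel_right]
          have e : T (qv C φ v (j + 1)) = qv C φ v (j + 2) + qv C φ v (j + 1) -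
              T (qv C φ v j) - (φ (j + 2) + φ (j + 1)) • T v := by rw [hrec j]; abel
          have e2 : qv C φ v (j + 2) = ((-1 : R) ^ m * (1 - φ 0)) • T v := hqm' _ hm1.symm
          simp only [map_add, map_smul]
          rw [e, e2]
          module
  ext r c
  rw [hcol, hcol2]
  exact congrFun (key c) r

/-- All `C^k v`, `k ≤ m + 1`, are in the column space of `W`. -/
theorem pow_mem {m : ℕ} (C : Matrix (Fin (m + 2)) (Fin (m + 2)) R) (φ : ℕ → R)
    (v : Fin (m + 2) → R) : ∀ k ≤ m + 1,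
      (C ^ k) *ᵥ v ∈ LinearMap.range (W C φ v m).mulVecLin := by
  set 𝒮 := LinearMap.range (W C φ v m).mulVecLin with h𝒮
  have hcol : ∀ z, W C φ v m *ᵥ z ∈ 𝒮 := fun z => ⟨z, rfl⟩
  have h1 : C *ᵥ v ∈ 𝒮 := by
    have := hcol (Pi.single (Sum.inl 1) 1)
    rw [W_mulVec] at this
    simpa using this
  have h0 : v ∈ 𝒮 := by
    have := hcol (Pi.single (Sum.inl 0) 1)
    rw [W_mulVec] at this
    have h2 : C *ᵥ v + v ∈ 𝒮 := by simpa using this
    have := 𝒮.sub_mem h2 h1
    simpa using this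
  have hq : ∀ i < m, qv C φ v i ∈ 𝒮 := by
    intro i hi
    have := hcol (Pi.single (Sum.inr ⟨i, hi⟩) 1)
    rw [W_mulVec] at this
    have e : ∑ k : Fin m, (Pi.single (Sum.inr ⟨i, hi⟩) 1 : Fin 2 ⊕ Fin m → R) (Sum.inr k) •
        qv C φ v k = qv C φ v i := by
      rw [sum_eq_single (⟨i, hi⟩ : Fin m)]
      · simp
      · intro k _ hk
        rw [Pi.single_eq_of_ne, zero_smul]
        intro h; exact hk (Sum.inr_injective h)
      · intro h; exact absurd (mem_univ _) h
    rw [e] at this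
    simpa using this
  have hw : wv C φ v ∈ 𝒮 := 𝒮.add_mem h0 (𝒮.smul_mem _ h1)
  intro k
  induction k using Nat.strong_induction_on with
  | _ k ih =>
    intro hk
    rcases k with _ | _ | i
    · simpa using h0
    · simpa using h1
    · have h2 := hq i (by omega)
      have h3 : C *ᵥ Hv C φ v (i + 1) ∈ 𝒮 := by
        have := 𝒮.sub_mem h2 (𝒮.smul_mem ((-1) ^ i) hw)
        simpa [qv] using this
      have h4 : Hv C φ v (i + 2) ∈ 𝒮 := by
        rw [Hv_succ]; exact 𝒮.add_mem h3 (𝒮.smul_mem _ h0)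
      rw [Hv] at h4
      have h5 : ∑ l ∈ range (i + 2), φ l • ((C ^ (i + 2 - 1 - l)) *ᵥ v) ∈ 𝒮 := by
        apply 𝒮.sum_mem
        intro l hl
        exact 𝒮.smul_mem _ (ih (i + 2 - 1 - l) (by omega) (by omega))
      have := 𝒮.sub_mem h4 h5
      simpa using this

/-- A matrix of determinant one with a cyclic vector is a commutator. -/
theorem cyclic_commutator {m : ℕ} (hm : 1 ≤ m) (C : Matrix (Fin (m + 2)) (Fin (m + 2)) R)
    (hC : C.det = 1) (v : Fin (m + 2) → R)
    (hv : IsUnit (Matrix.of fun (i k : Fin (m + 2)) => ((C ^ (k : ℕ)) *ᵥ v) i).det) :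
    ∃ A B : (Matrix (Fin (m + 2)) (Fin (m + 2)) R)ˣ,
      ((A * B * A⁻¹ * B⁻¹ : (Matrix (Fin (m + 2)) (Fin (m + 2)) R)ˣ) :
        Matrix (Fin (m + 2)) (Fin (m + 2)) R) = C := by
  rcases subsingleton_or_nontrivial R with hR | hR
  · exact ⟨1, 1, Subsingleton.elim _ _⟩
  set φ : ℕ → R := fun i => C.charpoly.coeff (m + 2 - 1 - i) with hφdef
  have htop : Hv C φ v (m + 2) = 0 := Hv_top C v
  have hφ : φ (m + 1) = (-1) ^ m := by
    have h1 := Matrix.det_eq_sign_charpoly_coeff C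
    rw [hC, Fintype.card_fin] at h1
    have h2 : φ (m + 1) = C.charpoly.coeff 0 := by
      simp only [hφdef]; congr 1; omega
    rw [h2]
    have h3 : ((-1 : R) ^ (m + 2)) * (-1) ^ (m + 2) = 1 := by rw [← mul_pow]; norm_num
    calc C.charpoly.coeff 0 = ((-1 : R) ^ (m + 2) * (-1) ^ (m + 2)) * C.charpoly.coeff 0 := by
          rw [h3, one_mul]
      _ = (-1) ^ (m + 2) * ((-1) ^ (m + 2) * C.charpoly.coeff 0) := by ring
      _ = (-1) ^ m := by rw [← h1]; ring
  have hrel := relation hm C φ v htop hφ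
  obtain ⟨B, B', hB1, hB2, hYZ⟩ := conj_YZ (Qm φ m) (Lm R m)
  obtain ⟨z, hz⟩ := Z_unit (Qm φ m)
  -- inverse of W
  set Wm := W C φ v m with hWm
  have hmem := pow_mem C φ v
  choose! u hu using fun (k : ℕ) (hk : k ≤ m + 1) => LinearMap.mem_range.1 (hmem k hk)
  set K : Matrix (Fin (m + 2)) (Fin (m + 2)) R :=
    Matrix.of fun (i k : Fin (m + 2)) => ((C ^ (k : ℕ)) *ᵥ v) i with hK
  have hWU : Wm * (Matrix.of fun (c : Fin 2 ⊕ Fin m) (k : Fin (m + 2)) => u (k : ℕ) c) = K := by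
    ext i k
    have := congrFun (hu (k : ℕ) (by omega)) i
    rw [hK, Matrix.of_apply, ← this]
    rfl
  have hKi : K * K⁻¹ = 1 := Matrix.mul_nonsing_inv K hv
  set V : Matrix (Fin 2 ⊕ Fin m) (Fin (m + 2)) R :=
    (Matrix.of fun (c : Fin 2 ⊕ Fin m) (k : Fin (m + 2)) => u (k : ℕ) c) * K⁻¹ with hV
  have hWV : Wm * V = 1 := by rw [hV, ← Matrix.mul_assoc, hWU, hKi]
  have hVW : V * Wm = 1 := by
    have e : Fin (m + 2) ≃ Fin 2 ⊕ Fin m :=
      ((finSumFinEquiv (m := 2) (n := m)).trans (finCongr (by omega))).symm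
    exact (Matrix.mul_eq_one_comm_of_equiv e).1 hWV
  -- conjugation by `W`
  have tr : ∀ M N : Matrix (Fin 2 ⊕ Fin m) (Fin 2 ⊕ Fin m) R,
      (Wm * M * V) * (Wm * N * V) = Wm * (M * N) * V := by
    intro M N
    calc (Wm * M * V) * (Wm * N * V) = Wm * M * (V * Wm) * N * V := by
          simp only [Matrix.mul_assoc]
      _ = Wm * (M * N) * V := by rw [hVW]; simp only [Matrix.mul_assoc, Matrix.one_mul]
  have tr1 : Wm * (1 : Matrix (Fin 2 ⊕ Fin m) (Fin 2 ⊕ Fin m) R) * V = 1 := by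
    rw [Matrix.mul_one, hWV]
  set zi : Matrix (Fin 2 ⊕ Fin m) (Fin 2 ⊕ Fin m) R :=
    ((z⁻¹ : (Matrix (Fin 2 ⊕ Fin m) (Fin 2 ⊕ Fin m) R)ˣ) :
      Matrix (Fin 2 ⊕ Fin m) (Fin 2 ⊕ Fin m) R) with hzi
  have hz1 : Z (Qm φ m) * zi = 1 := by rw [← hz, hzi]; exact z.mul_inv
  have hz2 : zi * Z (Qm φ m) = 1 := by rw [← hz, hzi]; exact z.inv_mul
  have hY : Y (Lm R m) = B * Z (Qm φ m) * B' := by
    rw [← hYZ, Matrix.mul_assoc, hB1, Matrix.mul_one]
  have hCW : C = Wm * (B * Z (Qm φ m) * B' * zi) * V := by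
    calc C = C * (Wm * V) := by rw [hWV, Matrix.mul_one]
      _ = C * Wm * (Z (Qm φ m) * zi) * V := by rw [hz1, Matrix.mul_one, Matrix.mul_assoc]
      _ = (C * Wm * Z (Qm φ m)) * zi * V := by simp only [Matrix.mul_assoc]
      _ = Wm * (B * Z (Qm φ m) * B' * zi) * V := by
          rw [hrel, hY]; simp only [Matrix.mul_assoc]
  refine ⟨⟨Wm * B * V, Wm * B' * V, by rw [tr, hB1, tr1], by rw [tr, hB2, tr1]⟩,
    ⟨Wm * Z (Qm φ m) * V, Wm * zi * V, by rw [tr, hz1, tr1], by rw [tr, hz2, tr1]⟩, ?_⟩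
  rw [Units.val_mul, Units.val_mul, Units.val_mul, Units.inv_mk, Units.inv_mk]
  simp only
  rw [tr, tr, tr]
  exact hCW.symm

end Pool.Agent.H87.Comm
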