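import Pool.Agent.H87.Comm.Gen

open Matrix Finset

namespace Pool.Agent.H87.Comm

variable {R : Type*} [CommRing R]

def DD (m : ℕ) (d ε : R) (x : ℕ → R) : Matrix (Fin (m + 2)) (Fin (m + 2)) R :=
  Matrix.of fun i k => if (k : ℕ) = m + 1 then
      (if (i : ℕ) = 0 then d else if (i : ℕ) = m + 1 then ε else 0)
    else if (k : ℕ) = m then x i else if (i : ℕ) = k + 1 then 1 else 0

theorem det_DD (d ε : R) (m : ℕ) : ∀ x : ℕ → R,
    (DD m d ε x).det = (-1) ^ m * (x 0 * ε - x (m + 1) * d) := by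
  induction m with
  | zero =>
    intro x
    rw [Matrix.det_fin_two]
    simp [DD]
    ring
  | succ m ih =>
    intro x
    rw [Matrix.det_succ_column_zero, Finset.sum_eq_single (1 : Fin (m + 1 + 2))]
    · have h1 : DD (m + 1) d ε x 1 0 = 1 := by
        simp [DD]
      have h2 : (DD (m + 1) d ε x).submatrix (Fin.succAbove 1) Fin.succ =
          DD m d ε (fun r => if r = 0 then x 0 else x (r + 1)) := by
        ext r c
        rw [submatrix_apply]
        refine Fin.cases ?_ (fun r => ?_) r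
        · have e : (Fin.succAbove (1 : Fin (m + 1 + 2)) 0) = 0 := by
            rw [Fin.succAbove_of_castSucc_lt]
            · rfl
            · rw [Fin.lt_def]; simp
          rw [e]
          simp only [DD, Matrix.of_apply, Fin.val_succ, Fin.val_zero]
          by_cases hc : (c : ℕ) = m + 1
          · rw [if_pos (by omega), if_pos hc]; simp
          · rw [if_neg (by omega), if_neg hc]
            by_cases hc2 : (c : ℕ) = m
            · rw [if_pos (by omega), if_pos hc2]; simp
            · rw [if_neg (by omega), if_neg hc2]; simp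
        · have e : (Fin.succAbove (1 : Fin (m + 1 + 2)) r.succ) = r.succ.succ := by
            rw [Fin.succAbove_of_le_castSucc]
            rw [Fin.le_def]; simp
          rw [e]
          simp only [DD, Matrix.of_apply, Fin.val_succ]
          by_cases hc : (c : ℕ) = m + 1
          · rw [if_pos (by omega), if_pos hc]
            simp
          · rw [if_neg (by omega), if_neg hc]
            by_cases hc2 : (c : ℕ) = m
            · rw [if_pos (by omega), if_pos hc2]; simp
            · rw [if_neg (by omega), if_neg hc2]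
              simp
      rw [h1, h2, ih]
      simp [pow_succ]
      try ring
    · intro i _ hi
      have : DD (m + 1) d ε x i 0 = 0 := by
        have h0 : ((0 : Fin (m + 1 + 2)) : ℕ) = 0 := rfl
        rw [DD, Matrix.of_apply, if_neg (by rw [h0]; omega), if_neg (by rw [h0]; omega), if_neg]
        intro h
        exact hi (Fin.ext (by simpa using h))
      rw [this]; ring
    · intro h; exact absurd (mem_univ _) h

/-- the matrix with columns `v, C v, …, C^m v, u` -/
def KK {m : ℕ} (C : Matrix (Fin (m + 2)) (Fin (m + 2)) R) (v u : Fin (m + 2) → R) :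
    Matrix (Fin (m + 2)) (Fin (m + 2)) R :=
  Matrix.of fun i k => if (k : ℕ) < m + 1 then ((C ^ (k : ℕ)) *ᵥ v) i else u i

theorem KK_mulVec {m : ℕ} (C : Matrix (Fin (m + 2)) (Fin (m + 2)) R) (v u : Fin (m + 2) → R)
    (z : ℕ → R) :
    KK C v u *ᵥ (fun k : Fin (m + 2) => z k) =
      (∑ k ∈ range (m + 1), z k • ((C ^ k) *ᵥ v)) + z (m + 1) • u := by
  ext i
  rw [mulVec, dotProduct, Fin.sum_univ_castSucc, Pi.add_apply, Finset.sum_apply, Finset.sum_range]
  congr 1
  · apply sum_congr rfl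
    intro k _
    simp only [KK, Matrix.of_apply, Fin.val_castSucc, Pi.smul_apply, smul_eq_mul]
    rw [if_pos k.2, mul_comm]
  · simp [KK, mul_comm]

theorem gen_commutator {m : ℕ} (hm : 1 ≤ m) (C : Matrix (Fin (m + 2)) (Fin (m + 2)) R)
    (hC : C.det = 1) (v u : Fin (m + 2) → R) (ε d : R) (hε : ε * ε = 1)
    (hu : C *ᵥ u = ε • u + d • v) (hb : IsUnit (KK C v u).det) :
    ∃ A B : (Matrix (Fin (m + 2)) (Fin (m + 2)) R)ˣ,
      ((A * B * A⁻¹ * B⁻¹ : (Matrix (Fin (m + 2)) (Fin (m + 2)) R)ˣ) :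
        Matrix (Fin (m + 2)) (Fin (m + 2)) R) = C := by
  set K := KK C v u with hK
  have hKi : K * K⁻¹ = 1 := Matrix.mul_nonsing_inv K hb
  set x0 : Fin (m + 2) → R := K⁻¹ *ᵥ ((C ^ (m + 1)) *ᵥ v) with hx0
  set x : ℕ → R := fun j => if h : j < m + 2 then x0 ⟨j, h⟩ else 0 with hx
  have hxx : (fun k : Fin (m + 2) => x k) = x0 := by
    ext k; simp [hx]
  have hKx : K *ᵥ (fun k : Fin (m + 2) => x k) = (C ^ (m + 1)) *ᵥ v := by
    rw [hxx, hx0, mulVec_mulVec, hKi, one_mulVec]
  have hexp := KK_mulVec C v u x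
  rw [← hK, hKx] at hexp
  -- companion relation
  have hCK : C * K = K * DD m d ε x := by
    have hc1 : ∀ (r k), (C * K) r k = (C *ᵥ (fun i => K i k)) r := fun r k => rfl
    have hc2 : ∀ (r k), (K * DD m d ε x) r k = (K *ᵥ (fun i => DD m d ε x i k)) r :=
      fun r k => rfl
    ext r k
    rw [hc1, hc2]
    apply congrFun
    by_cases h1 : (k : ℕ) = m + 1
    · have e1 : (fun i => K i k) = u := by
        ext i; rw [hK, KK, Matrix.of_apply, if_neg (by omega)]
      have e2 : (fun i => DD m d ε x i k) = (fun i : Fin (m + 2) =>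
          (fun j : ℕ => if j = 0 then d else if j = m + 1 then ε else 0) (i : ℕ)) := by
        ext i; rw [DD, Matrix.of_apply, if_pos h1]
      rw [e1, e2, hK, KK_mulVec C v u
        (fun j : ℕ => if j = 0 then d else if j = m + 1 then ε else 0), hu]
      rw [Finset.sum_eq_single 0]
      · simp [add_comm]
      · intro b hb hb0
        have := mem_range.1 hb
        rw [if_neg hb0, if_neg (by omega), zero_smul]
      · intro h; exact absurd (mem_range.2 (by omega)) h
    · have hk := k.2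
      have e1 : (fun i => K i k) = (C ^ (k : ℕ)) *ᵥ v := by
        ext i; rw [hK, KK, Matrix.of_apply, if_pos (by omega)]
      rw [e1, mulVec_mulVec, ← pow_succ']
      by_cases h2 : (k : ℕ) = m
      · have e2 : (fun i => DD m d ε x i k) = (fun i : Fin (m + 2) => x i) := by
          ext i; rw [DD, Matrix.of_apply, if_neg h1, if_pos h2]
        rw [e2, hKx, h2]
      · have e2 : (fun i => DD m d ε x i k) = (fun i : Fin (m + 2) =>
            (fun j : ℕ => if j = (k : ℕ) + 1 then (1 : R) else 0) (i : ℕ)) := by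
          ext i; rw [DD, Matrix.of_apply, if_neg h1, if_neg h2]
        rw [e2, hK, KK_mulVec C v u (fun j : ℕ => if j = (k : ℕ) + 1 then (1 : R) else 0)]
        rw [Finset.sum_eq_single ((k : ℕ) + 1)]
        · rw [if_pos rfl, one_smul, if_neg (by omega), zero_smul, add_zero]
        · intro b _ hb0
          rw [if_neg hb0, zero_smul]
        · intro h; exact absurd (mem_range.2 (by omega)) h
  have hdet : (-1) ^ m * (x 0 * ε - x (m + 1) * d) = 1 := by
    rw [← det_DD d ε m x]
    have := congrArg Matrix.det hCK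
    rw [Matrix.det_mul, Matrix.det_mul, hC, one_mul] at this
    obtain ⟨w, hw⟩ := hb
    have h3 : (w : R) * 1 = w * (DD m d ε x).det := by rw [hw, mul_one]; exact this
    exact (Units.mul_right_inj w).1 h3.symm
  set φ : ℕ → R := fun i => - x (m - i) with hφ
  have htop : C *ᵥ Hv C φ v m = x 0 • v + x (m + 1) • u := by
    have h1 : C *ᵥ Hv C φ v m = (C ^ (m + 1)) *ᵥ v -
        ∑ i ∈ range m, x (i + 1) • ((C ^ (i + 1)) *ᵥ v) := by
      rw [Hv, mulVec_add, mulVec_mulVec, ← pow_succ', mulVec_sum, sub_eq_add_neg]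
      congr 1
      rw [← sum_neg_distrib, ← sum_range_reflect]
      apply sum_congr rfl
      intro i hi
      have hi' := mem_range.1 hi
      rw [mulVec_smul, mulVec_mulVec, ← pow_succ', hφ]
      have e1 : m - (m - 1 - i) = i + 1 := by omega
      have e2 : m - 1 - (m - 1 - i) + 1 = i + 1 := by omega
      simp only
      rw [e1, e2, neg_smul]
    rw [h1, hexp, sum_range_succ']
    simp only [pow_zero, one_mulVec]
    abel
  have hrel := relation_g hm C φ v u ε d (ε * (ε - 1 + d - (-1) ^ m * x (m + 1))) (x 0) (x (m + 1))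
    hε hu htop hdet rfl
  set z0 : R := ε * (ε - 1 + d - (-1) ^ m * x (m + 1)) with hz0
  obtain ⟨B, B', hB1, hB2, hYZ⟩ := conj_YZg (zz ε d) (a1' R) (PP ε d) (PP' ε d) (zz_sq ε d hε)
    a1'_sq (PP_mul ε d hε) (PP'_mul ε d hε) (a1'_PP ε d hε) (zz ε d * Xg φ ε d z0 m) (Lg R m)
  obtain ⟨z, hz⟩ := Zg_unit ε d hε (zz ε d * Xg φ ε d z0 m)
  set Wm := Wg C φ ε d v u m with hWm
  set Zm := Zg (zz ε d) (zz ε d * Xg φ ε d z0 m) with hZm
  set Ym := Yg (a1' R) (Lg R m) with hYm
  obtain ⟨hmu, hmem⟩ := pow_mem_g C φ ε d v u hε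
  have hcolK : ∀ k : Fin (m + 2), ∃ y, (Wg C φ ε d v u m).mulVecLin y = fun i => K i k := by
    intro k
    apply LinearMap.mem_range.1
    by_cases h1 : (k : ℕ) < m + 1
    · have e : (fun i => K i k) = (C ^ (k : ℕ)) *ᵥ v := by
        ext i; rw [hK, KK, Matrix.of_apply, if_pos h1]
      rw [e]; exact hmem k (by omega)
    · have e : (fun i => K i k) = u := by
        ext i; rw [hK, KK, Matrix.of_apply, if_neg h1]
      rw [e]; exact hmu
  choose y hy using hcolK
  have hWU : Wm * (Matrix.of fun (c : Fin 2 ⊕ Fin m) (k : Fin (m + 2)) => y k c) = K := by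
    ext i k
    have := congrFun (hy k) i
    rw [← this]
    rfl
  set V : Matrix (Fin 2 ⊕ Fin m) (Fin (m + 2)) R :=
    (Matrix.of fun (c : Fin 2 ⊕ Fin m) (k : Fin (m + 2)) => y k c) * K⁻¹ with hV
  have hWV : Wm * V = 1 := by rw [hV, ← Matrix.mul_assoc, hWU, hKi]
  have hVW : V * Wm = 1 := by
    have e : Fin (m + 2) ≃ Fin 2 ⊕ Fin m :=
      ((finSumFinEquiv (m := 2) (n := m)).trans (finCongr (by omega))).symm
    exact (Matrix.mul_eq_one_comm_of_equiv e).1 hWV
  have tr : ∀ M N : Matrix (Fin 2 ⊕ Fin m) (Fin 2 ⊕ Fin m) R,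
      (Wm * M * V) * (Wm * N * V) = Wm * (M * N) * V := by
    intro M N
    calc (Wm * M * V) * (Wm * N * V) = Wm * M * (V * Wm) * N * V := by
          simp only [Matrix.mul_assoc]
      _ = Wm * (M * N) * V := by rw [hVW]; simp only [Matrix.mul_assoc, Matrix.one_mul]
  have tr1 : Wm * (1 : Matrix (Fin 2 ⊕ Fin m) (Fin 2 ⊕ Fin m) R) * V = 1 := by
    rw [Matrix.mul_one, hWV]
  set zi : Matrix (Fin 2 ⊕ Fin m) (Fin 2 ⊕ Fin m) R :=
    ((z⁻¹ : (Matrix (Fin 2 ⊕ Fin m) (Fin 2 ⊕ Fin m) R)ˣ) :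
      Matrix (Fin 2 ⊕ Fin m) (Fin 2 ⊕ Fin m) R) with hzi
  have hz1 : Zm * zi = 1 := by rw [← hz, hzi]; exact z.mul_inv
  have hz2 : zi * Zm = 1 := by rw [← hz, hzi]; exact z.inv_mul
  have hY : Ym = B * Zm * B' := by
    rw [← hYZ, Matrix.mul_assoc, hB1, Matrix.mul_one]
  have hCW : C = Wm * (B * Zm * B' * zi) * V := by
    calc C = C * (Wm * V) := by rw [hWV, Matrix.mul_one]
      _ = C * Wm * (Zm * zi) * V := by rw [hz1, Matrix.mul_one, Matrix.mul_assoc]
      _ = (C * Wm * Zm) * zi * V := by simp only [Matrix.mul_assoc]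
      _ = Wm * (B * Zm * B' * zi) * V := by
          rw [hrel, hY]; simp only [Matrix.mul_assoc]
  refine ⟨⟨Wm * B * V, Wm * B' * V, by rw [tr, hB1, tr1], by rw [tr, hB2, tr1]⟩,
    ⟨Wm * Zm * V, Wm * zi * V, by rw [tr, hz1, tr1], by rw [tr, hz2, tr1]⟩, ?_⟩
  rw [Units.val_mul, Units.val_mul, Units.val_mul, Units.inv_mk, Units.inv_mk]
  simp only
  rw [tr, tr, tr]
  exact hCW.symm

end Pool.Agent.H87.Comm
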