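import Pool.Agent.H87.Comm.Cyc

/-! Generalisation: `v, C v, …, C^(n-2) v, u` a basis with `C u = ε u + d v`. -/

open Matrix Finset

namespace Pool.Agent.H87.Comm

variable {R : Type*} [CommRing R]

def Zg {m : ℕ} (z1 : Matrix (Fin 2) (Fin 2) R) (Q : Matrix (Fin 2) (Fin m) R) :
    Matrix (Fin 2 ⊕ Fin m) (Fin 2 ⊕ Fin m) R := fromBlocks z1 Q 0 (S R m)ᵀ

def Yg {m : ℕ} (y1 : Matrix (Fin 2) (Fin 2) R) (L : Matrix (Fin m) (Fin 2) R) :
    Matrix (Fin 2 ⊕ Fin m) (Fin 2 ⊕ Fin m) R := fromBlocks y1 0 L (S R m)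

theorem conj_YZg {m : ℕ} (z1 y1 P P' : Matrix (Fin 2) (Fin 2) R) (hz : z1 * z1 - z1 + 1 = 0)
    (hy : y1 * y1 - y1 + 1 = 0) (hP : P * P' = 1) (hP' : P' * P = 1) (hyP : y1 * P = P * z1)
    (Q : Matrix (Fin 2) (Fin m) R) (L : Matrix (Fin m) (Fin 2) R) :
    ∃ B B' : Matrix (Fin 2 ⊕ Fin m) (Fin 2 ⊕ Fin m) R, B * B' = 1 ∧ B' * B = 1 ∧
      Yg y1 L * B = B * Zg z1 Q := by
  obtain ⟨U, hU, hcU⟩ := exists_U (R := R) m
  obtain ⟨X, hX⟩ := sylvester z1 hz ((S R m)ᵀ) U hU hcU Q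
  obtain ⟨X2, hX2⟩ := sylvester (y1ᵀ) (by
    have := congrArg Matrix.transpose hy
    simpa [Matrix.transpose_mul] using this) ((S R m)ᵀ) U hU hcU (-Lᵀ)
  have hL : L + S R m * X2ᵀ = X2ᵀ * y1 := by
    have := congrArg Matrix.transpose hX2
    simp only [Matrix.transpose_add, Matrix.transpose_mul, Matrix.transpose_transpose,
      Matrix.transpose_neg] at this
    rw [← this]; abel
  have d1 : fromBlocks P 0 0 (J R m) * fromBlocks P' 0 0 (J R m) = 1 := by
    rw [fromBlocks_multiply]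
    simp only [hP, J_sq, Matrix.mul_zero, Matrix.zero_mul, add_zero, zero_add]
    exact fromBlocks_one
  have d2 : fromBlocks P' 0 0 (J R m) * fromBlocks P 0 0 (J R m) = 1 := by
    rw [fromBlocks_multiply]
    simp only [hP', J_sq, Matrix.mul_zero, Matrix.zero_mul, add_zero, zero_add]
    exact fromBlocks_one
  have u1 : (fromBlocks 1 0 X2ᵀ 1 : Matrix (Fin 2 ⊕ Fin m) (Fin 2 ⊕ Fin m) R) *
      fromBlocks 1 0 (-X2ᵀ) 1 = 1 := by
    rw [fromBlocks_multiply]
    simp
  have u2 : (fromBlocks 1 0 (-X2ᵀ) 1 : Matrix (Fin 2 ⊕ Fin m) (Fin 2 ⊕ Fin m) R) *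
      fromBlocks 1 0 X2ᵀ 1 = 1 := by
    rw [fromBlocks_multiply]
    simp
  have v1 : (fromBlocks 1 (-X) 0 1 : Matrix (Fin 2 ⊕ Fin m) (Fin 2 ⊕ Fin m) R) *
      fromBlocks 1 X 0 1 = 1 := by
    rw [fromBlocks_multiply]
    simp
  have v2 : (fromBlocks 1 X 0 1 : Matrix (Fin 2 ⊕ Fin m) (Fin 2 ⊕ Fin m) R) *
      fromBlocks 1 (-X) 0 1 = 1 := by
    rw [fromBlocks_multiply]
    simp
  have e1 : Yg y1 L * fromBlocks 1 0 X2ᵀ 1 = fromBlocks 1 0 X2ᵀ 1 * fromBlocks y1 0 0 (S R m) := by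
    rw [Yg, fromBlocks_multiply, fromBlocks_multiply]
    simp [hL]
  have e2 : fromBlocks y1 0 0 (S R m) * fromBlocks P 0 0 (J R m) =
      fromBlocks P 0 0 (J R m) * fromBlocks z1 0 0 ((S R m)ᵀ) := by
    rw [fromBlocks_multiply, fromBlocks_multiply]
    simp [hyP, S_J]
  have e3 : fromBlocks z1 0 0 ((S R m)ᵀ) * fromBlocks 1 (-X) 0 1 =
      fromBlocks 1 (-X) 0 1 * Zg z1 Q := by
    rw [Zg, fromBlocks_multiply, fromBlocks_multiply]
    have : -(z1 * X) = Q + -(X * (S R m)ᵀ) := by rw [← hX]; abel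
    simp [this]
  refine ⟨fromBlocks 1 0 X2ᵀ 1 * fromBlocks P 0 0 (J R m) * fromBlocks 1 (-X) 0 1,
    fromBlocks 1 X 0 1 * fromBlocks P' 0 0 (J R m) * fromBlocks 1 0 (-X2ᵀ) 1, ?_, ?_, ?_⟩
  · calc _ = fromBlocks 1 0 X2ᵀ 1 * (fromBlocks P 0 0 (J R m) *
          (fromBlocks 1 (-X) 0 1 * fromBlocks 1 X 0 1) * fromBlocks P' 0 0 (J R m)) *
          fromBlocks 1 0 (-X2ᵀ) 1 := by simp only [Matrix.mul_assoc]
      _ = 1 := by rw [v1, Matrix.mul_one, d1, Matrix.mul_one, u1]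
  · calc _ = fromBlocks 1 X 0 1 * (fromBlocks P' 0 0 (J R m) *
          (fromBlocks 1 0 (-X2ᵀ) 1 * fromBlocks 1 0 X2ᵀ 1) * fromBlocks P 0 0 (J R m)) *
          fromBlocks 1 (-X) 0 1 := by simp only [Matrix.mul_assoc]
      _ = 1 := by rw [u2, Matrix.mul_one, d2, Matrix.mul_one, v2]
  · calc _ = (Yg y1 L * fromBlocks 1 0 X2ᵀ 1) * fromBlocks P 0 0 (J R m) *
          fromBlocks 1 (-X) 0 1 := by simp only [Matrix.mul_assoc]
      _ = fromBlocks 1 0 X2ᵀ 1 * (fromBlocks y1 0 0 (S R m) * fromBlocks P 0 0 (J R m)) *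
          fromBlocks 1 (-X) 0 1 := by rw [e1]; simp only [Matrix.mul_assoc]
      _ = fromBlocks 1 0 X2ᵀ 1 * fromBlocks P 0 0 (J R m) *
          (fromBlocks z1 0 0 ((S R m)ᵀ) * fromBlocks 1 (-X) 0 1) := by
            rw [e2]; simp only [Matrix.mul_assoc]
      _ = _ := by rw [e3]; simp only [Matrix.mul_assoc]

/-- `A⁻¹` -/
def zz (ε d : R) : Matrix (Fin 2) (Fin 2) R := !![1 - d, -ε * (d - d ^ 2 - 1); -ε, d]

def PP (ε d : R) : Matrix (Fin 2) (Fin 2) R := !![1, -ε * d; 0, ε]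

def PP' (ε d : R) : Matrix (Fin 2) (Fin 2) R := !![1, d; 0, ε]

theorem zz_sq (ε d : R) (hε : ε * ε = 1) : zz ε d * zz ε d - zz ε d + 1 = 0 := by
  ext i j
  fin_cases i <;> fin_cases j <;> simp [zz, Matrix.mul_apply, Fin.sum_univ_two]
  · linear_combination (d - d ^ 2 - 1) * hε
  · ring
  · ring
  · linear_combination (d - d ^ 2 - 1) * hε

theorem PP_mul (ε d : R) (hε : ε * ε = 1) : PP ε d * PP' ε d = 1 := by
  ext i j
  fin_cases i <;> fin_cases j <;> simp [PP, PP', Matrix.mul_apply, Fin.sum_univ_two, hε]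
  linear_combination (-d) * hε

theorem PP'_mul (ε d : R) (hε : ε * ε = 1) : PP' ε d * PP ε d = 1 := by
  ext i j
  fin_cases i <;> fin_cases j <;> simp [PP, PP', Matrix.mul_apply, Fin.sum_univ_two, hε]
  ring

theorem a1'_PP (ε d : R) (hε : ε * ε = 1) : a1' R * PP ε d = PP ε d * zz ε d := by
  ext i j
  fin_cases i <;> fin_cases j <;> simp [PP, zz, a1', Matrix.mul_apply, Fin.sum_univ_two]
  · linear_combination (-d) * hε
  · ring
  · linear_combination (-1 : R) * hε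

theorem zz_unit (ε d : R) (hε : ε * ε = 1) : IsUnit (zz ε d) := by
  rw [Matrix.isUnit_iff_isUnit_det, zz, Matrix.det_fin_two_of]
  have : (1 - d) * d - -ε * (d - d ^ 2 - 1) * -ε = 1 := by
    linear_combination (-(d - d ^ 2 - 1)) * hε
  rw [this]; exact isUnit_one

theorem Zg_unit {m : ℕ} (ε d : R) (hε : ε * ε = 1) (Q : Matrix (Fin 2) (Fin m) R) :
    IsUnit (Zg (zz ε d) Q) := by
  rw [Zg, isUnit_fromBlocks_zero₂₁]
  refine ⟨zz_unit ε d hε, ?_⟩
  rw [Matrix.isUnit_iff_isUnit_det, Matrix.det_of_isUpperTriangular]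
  · simp [S]
  · intro i j h
    simp only [id_eq] at h
    rw [transpose_apply, S, Matrix.of_apply, if_neg, if_neg]
    · have : (j : ℕ) < i := h
      omega
    · intro h'; rw [h'] at h; exact lt_irrefl _ h

/-- `w₀` -/
def wg {n : ℕ} (ε d : R) (v u : Fin n → R) : Fin n → R :=
  (ε * (d - d ^ 2 - 1) - d) • v + ((1 - d) - ε) • u

def qg {n : ℕ} (C : Matrix (Fin n) (Fin n) R) (φ : ℕ → R) (ε d : R) (v u : Fin n → R) (i : ℕ) :
    Fin n → R :=
  C *ᵥ Hv C φ v i + ((-1 : R) ^ i) • wg ε d v u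

def Wg {n : ℕ} (C : Matrix (Fin n) (Fin n) R) (φ : ℕ → R) (ε d : R) (v u : Fin n → R) (m : ℕ) :
    Matrix (Fin n) (Fin 2 ⊕ Fin m) R :=
  Matrix.of fun r c => Sum.elim
    (fun j => (![d • v + ε • u, (ε * (d - d ^ 2 - 1)) • v + (1 - d) • u] : Fin 2 → Fin n → R) j)
    (fun k : Fin m => qg C φ ε d v u k) c r

theorem Wg_mulVec {n : ℕ} (C : Matrix (Fin n) (Fin n) R) (φ : ℕ → R) (ε d : R) (v u : Fin n → R)
    (m : ℕ) (z : Fin 2 ⊕ Fin m → R) :
    Wg C φ ε d v u m *ᵥ z = z (Sum.inl 0) • (d • v + ε • u) +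
      z (Sum.inl 1) • ((ε * (d - d ^ 2 - 1)) • v + (1 - d) • u) +
      ∑ k : Fin m, z (Sum.inr k) • qg C φ ε d v u k := by
  ext r
  simp only [mulVec, dotProduct, Fintype.sum_sum_type, Fin.sum_univ_two, Wg, Matrix.of_apply,
    Sum.elim_inl, Sum.elim_inr, Pi.add_apply, Pi.smul_apply, Finset.sum_apply, smul_eq_mul]
  congr 1
  · simp; ring
  · apply sum_congr rfl; intro k _; ring

/-- coordinates in the basis `v, u` of the coupling vectors -/
def Xg (φ : ℕ → R) (ε d z : R) (m : ℕ) : Matrix (Fin 2) (Fin m) R :=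
  Matrix.of fun j i =>
    if j = 0 then
      (if (i : ℕ) = 0 then φ 0 + 1 - (ε * (d - d ^ 2 - 1) - d) else φ i + φ (i - 1))
    else
      (if (i : ℕ) = 0 then -((1 - d) - ε) else 0) + (if (i : ℕ) + 1 = m then (-1) ^ m * z else 0)

def Lg (R : Type*) [CommRing R] (m : ℕ) : Matrix (Fin m) (Fin 2) R :=
  Matrix.of fun i j => if (i : ℕ) = 0 then (if j = 0 then 1 else 0) else 0

theorem relation_g {m : ℕ} (hm : 1 ≤ m) (C : Matrix (Fin (m + 2)) (Fin (m + 2)) R) (φ : ℕ → R)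
    (v u : Fin (m + 2) → R) (ε d z α β : R) (hε : ε * ε = 1)
    (hu : C *ᵥ u = ε • u + d • v) (htop : C *ᵥ Hv C φ v m = α • v + β • u)
    (hαβ : (-1) ^ m * (α * ε - β * d) = 1)
    (hz : z = ε * (ε - 1 + d - (-1) ^ m * β)) :
    C * Wg C φ ε d v u m * Zg (zz ε d) (zz ε d * Xg φ ε d z m) =
      Wg C φ ε d v u m * Yg (a1' R) (Lg R m) := by
  set T := C.mulVecLin with hT
  have hTx : ∀ x, C *ᵥ x = T x := fun x => rfl
  have hTu : T u = ε • u + d • v := hu
  have hH0 : Hv C φ v 0 = v := Hv_zero C φ v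
  have hHs : ∀ k, Hv C φ v (k + 1) = T (Hv C φ v k) + φ k • v := fun k => Hv_succ C φ v k
  have hH1 : Hv C φ v 1 = T v + φ 0 • v := by rw [hHs 0, hH0]
  have hq : ∀ i, qg C φ ε d v u i = T (Hv C φ v i) + ((-1 : R) ^ i) • wg ε d v u := fun i => rfl
  have hw : wg ε d v u = (ε * (d - d ^ 2 - 1) - d) • v + ((1 - d) - ε) • u := rfl
  have hmm : ((-1 : R) ^ m) * (-1) ^ m = 1 := by rw [← mul_pow]; norm_num
  -- the last vector
  have hqm : qg C φ ε d v u m = (-((-1 : R) ^ m) * z) • T u := by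
    have h1 : T (Hv C φ v m) = α • v + β • u := htop
    rw [hq, h1, hw, hTu]
    have c1 : α + (-1) ^ m * (ε * (d - d ^ 2 - 1) - d) = (-((-1 : R) ^ m) * z) * d := by
      have hα : α = ε * ((-1) ^ m + β * d) := by
        linear_combination (-α) * hε + (ε * (-1) ^ m) * hαβ - ε * (α * ε - β * d) * hmm
      rw [hα, hz]
      linear_combination (((-1 : R) ^ m) * d) * hε - (ε * β * d) * hmm
    have c2 : β + (-1) ^ m * ((1 - d) - ε) = (-((-1 : R) ^ m) * z) * ε := by
      rw [hz]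
      linear_combination (((-1 : R) ^ m) * (ε - 1 + d - (-1) ^ m * β)) * hε + (-β) * hmm
    calc α • v + β • u + ((-1 : R) ^ m) • ((ε * (d - d ^ 2 - 1) - d) • v + ((1 - d) - ε) • u)
        = (α + (-1) ^ m * (ε * (d - d ^ 2 - 1) - d)) • v +
          (β + (-1) ^ m * ((1 - d) - ε)) • u := by module
      _ = ((-((-1 : R) ^ m) * z) * d) • v + ((-((-1 : R) ^ m) * z) * ε) • u := by rw [c1, c2]
      _ = _ := by module
  have hqm' : ∀ k, k = m → qg C φ ε d v u k = (-((-1 : R) ^ m) * z) • T u := by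
    intro k hk; rw [hk]; exact hqm
  -- recursion
  have hrec : ∀ i, qg C φ ε d v u (i + 2) = T (qg C φ ε d v u (i + 1)) - qg C φ ε d v u (i + 1) +
      T (qg C φ ε d v u i) + (φ (i + 1) + φ i) • T v := by
    intro i
    rw [hq (i + 2), hq (i + 1), hq i, hHs (i + 1), hHs i]
    simp only [map_add, map_smul, pow_succ]
    module
  have hrec0 : qg C φ ε d v u 1 = T (qg C φ ε d v u 0) - qg C φ ε d v u 0 +
      T ((φ 0 + 1) • v - wg ε d v u) := by
    rw [hq 1, hq 0, hH1, hH0]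
    simp only [map_add, map_smul, map_sub, pow_succ, pow_zero]
    module
  have hq0 : qg C φ ε d v u 0 = T v + wg ε d v u := by
    rw [hq 0, hH0, pow_zero, one_smul]
  -- coordinates: `p' (zz X) = X₀ v + X₁ u`
  have hcoord : ∀ x y : R,
      ((1 - d) * x + -ε * (d - d ^ 2 - 1) * y) • (d • v + ε • u) +
        (-ε * x + d * y) • ((ε * (d - d ^ 2 - 1)) • v + (1 - d) • u) = x • v + y • u := by
    intro x y
    have c1 : ((1 - d) * x + -ε * (d - d ^ 2 - 1) * y) * d +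
        (-ε * x + d * y) * (ε * (d - d ^ 2 - 1)) = x := by
      linear_combination (-(x * (d - d ^ 2 - 1))) * hε
    have c2 : ((1 - d) * x + -ε * (d - d ^ 2 - 1) * y) * ε + (-ε * x + d * y) * (1 - d) = y := by
      linear_combination (-(y * (d - d ^ 2 - 1))) * hε
    calc _ = (((1 - d) * x + -ε * (d - d ^ 2 - 1) * y) * d +
        (-ε * x + d * y) * (ε * (d - d ^ 2 - 1))) • v +
        (((1 - d) * x + -ε * (d - d ^ 2 - 1) * y) * ε + (-ε * x + d * y) * (1 - d)) • u := by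
          module
      _ = _ := by rw [c1, c2]
  have hcol : ∀ (A : Matrix (Fin 2 ⊕ Fin m) (Fin 2 ⊕ Fin m) R) (r : Fin (m + 2))
      (c : Fin 2 ⊕ Fin m), (Wg C φ ε d v u m * A) r c =
        (Wg C φ ε d v u m *ᵥ (fun k => A k c)) r :=
    fun A r c => rfl
  have hcol2 : ∀ (A : Matrix (Fin 2 ⊕ Fin m) (Fin 2 ⊕ Fin m) R) (r : Fin (m + 2))
      (c : Fin 2 ⊕ Fin m), (C * Wg C φ ε d v u m * A) r c =
        (T (Wg C φ ε d v u m *ᵥ (fun k => A k c))) r := by
    intro A r c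
    rw [Matrix.mul_assoc]
    rfl
  have key : ∀ c : Fin 2 ⊕ Fin m,
      T (Wg C φ ε d v u m *ᵥ (fun k => Zg (zz ε d) (zz ε d * Xg φ ε d z m) k c)) =
      Wg C φ ε d v u m *ᵥ (fun k => Yg (a1' R) (Lg R m) k c) := by
    intro c
    rw [Wg_mulVec, Wg_mulVec]
    rcases c with c | i
    · fin_cases c
      · simp only [Zg, Yg, fromBlocks_apply₁₁, fromBlocks_apply₂₁, a1', Lg]
        have hs : ∑ x : Fin m, (if (x : ℕ) = 0 then qg C φ ε d v u x else 0) =
            qg C φ ε d v u 0 := by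
          rw [sum_eq_single (⟨0, hm⟩ : Fin m)]
          · simp
          · intro k _ hk
            rw [if_neg]
            intro h; exact hk (Fin.ext h)
          · intro h; exact absurd (mem_univ _) h
        have h1 := hcoord 1 0
        have e : T ((zz ε d) 0 0 • (d • v + ε • u) +
            (zz ε d) 1 0 • ((ε * (d - d ^ 2 - 1)) • v + (1 - d) • u)) = T v := by
          congr 1
          have := hcoord 1 0
          simpa [zz] using this
        simp only [Fin.zero_eta, Matrix.zero_apply, zero_smul, sum_const_zero, add_zero]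
        rw [e]
        simp
        rw [hs, hq0, hw]
        module
      · simp only [Zg, Yg, fromBlocks_apply₁₁, fromBlocks_apply₂₁, a1', Lg]
        have e : T ((zz ε d) 0 1 • (d • v + ε • u) +
            (zz ε d) 1 1 • ((ε * (d - d ^ 2 - 1)) • v + (1 - d) • u)) = T u := by
          congr 1
          have := hcoord 0 1
          simpa [zz] using this
        simp only [Fin.mk_one, Matrix.zero_apply, zero_smul, sum_const_zero, add_zero]
        rw [e, hTu]
        simp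
        abel
    · simp only [Zg, Yg, fromBlocks_apply₁₂, fromBlocks_apply₂₂]
      rw [sum_S (fun k => qg C φ ε d v u k) i, sum_ST (fun k => qg C φ ε d v u k) i]
      simp only [Matrix.zero_apply, zero_smul, zero_add]
      have hQ : (zz ε d * Xg φ ε d z m) 0 i • (d • v + ε • u) +
          (zz ε d * Xg φ ε d z m) 1 i • ((ε * (d - d ^ 2 - 1)) • v + (1 - d) • u) =
          (Xg φ ε d z m 0 i) • v + (Xg φ ε d z m 1 i) • u := by
        rw [← hcoord (Xg φ ε d z m 0 i) (Xg φ ε d z m 1 i)]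
        simp [zz, Matrix.mul_apply, Fin.sum_univ_two]
      rw [hQ]
      have hX0 : Xg φ ε d z m 0 i = (if (i : ℕ) = 0 then φ 0 + 1 - (ε * (d - d ^ 2 - 1) - d)
          else φ i + φ (i - 1)) := by simp [Xg]
      have hX1 : Xg φ ε d z m 1 i = (if (i : ℕ) = 0 then -((1 - d) - ε) else 0) +
          (if (i : ℕ) + 1 = m then (-1) ^ m * z else 0) := by simp [Xg]
      rw [hX0, hX1]
      obtain ⟨i, hi⟩ := i
      simp only
      rcases i with _ | j
      · rw [if_pos rfl, if_pos rfl, if_neg (lt_irrefl 0)]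
        by_cases h1 : 0 + 1 < m
        · rw [if_neg (by omega), if_pos h1]
          simp only [zero_add]
          rw [hrec0, hw]
          simp only [map_add, map_smul, map_sub, map_zero]
          module
        · have hm1 : m = 1 := by omega
          rw [if_pos (by omega), if_neg h1]
          have e2 := hqm' 1 hm1.symm
          rw [hrec0, hw] at e2
          simp only [map_add, map_smul, map_sub, map_zero] at e2 ⊢
          have e3 : T (qg C φ ε d v u 0) = (-((-1 : R) ^ m) * z) • T u + qg C φ ε d v u 0 -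
              ((φ 0 + 1) • T v - ((ε * (d - d ^ 2 - 1) - d) • T v + ((1 - d) - ε) • T u)) := by
            rw [← e2]; abel
          rw [e3]
          module
      · rw [if_neg (show ¬ (j + 1 = 0) by omega), if_neg (show ¬ (j + 1 = 0) by omega),
          if_pos (show 0 < j + 1 by omega)]
        simp only [add_tsub_cancel_right]
        by_cases h1 : j + 1 + 1 < m
        · rw [if_neg (show ¬ (j + 1 + 1 = m) by omega), if_pos h1]
          rw [hrec j]
          simp only [map_add, map_smul]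
          module
        · have hm1 : m = j + 2 := by omega
          rw [if_pos (show j + 1 + 1 = m by omega), if_neg h1]
          have e2 := hqm' _ hm1.symm
          rw [hrec j] at e2
          simp only [map_add, map_smul]
          have e3 : T (qg C φ ε d v u (j + 1)) = (-((-1 : R) ^ m) * z) • T u +
              qg C φ ε d v u (j + 1) - T (qg C φ ε d v u j) - (φ (j + 1) + φ j) • T v := by
            rw [← e2]; abel
          rw [e3]
          module
  ext r c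
  rw [hcol, hcol2]
  exact congrFun (key c) r

theorem pow_mem_g {m : ℕ} (C : Matrix (Fin (m + 2)) (Fin (m + 2)) R) (φ : ℕ → R) (ε d : R)
    (v u : Fin (m + 2) → R) (hε : ε * ε = 1) :
    u ∈ LinearMap.range (Wg C φ ε d v u m).mulVecLin ∧
    ∀ k ≤ m, (C ^ k) *ᵥ v ∈ LinearMap.range (Wg C φ ε d v u m).mulVecLin := by
  set 𝒮 := LinearMap.range (Wg C φ ε d v u m).mulVecLin with h𝒮
  have hcol : ∀ z, Wg C φ ε d v u m *ᵥ z ∈ 𝒮 := fun z => ⟨z, rfl⟩
  have h1 : d • v + ε • u ∈ 𝒮 := by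
    have := hcol (Pi.single (Sum.inl 0) 1)
    rw [Wg_mulVec] at this
    simpa using this
  have h2 : (ε * (d - d ^ 2 - 1)) • v + (1 - d) • u ∈ 𝒮 := by
    have := hcol (Pi.single (Sum.inl 1) 1)
    rw [Wg_mulVec] at this
    simpa using this
  have hv0 : v ∈ 𝒮 := by
    have e : (1 - d) • (d • v + ε • u) + (-ε) • ((ε * (d - d ^ 2 - 1)) • v + (1 - d) • u) =
        v := by
      have c1 : (1 - d) * d + -ε * (ε * (d - d ^ 2 - 1)) = 1 := by
        linear_combination (-(d - d ^ 2 - 1)) * hε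
      calc _ = ((1 - d) * d + -ε * (ε * (d - d ^ 2 - 1))) • v := by module
        _ = v := by rw [c1, one_smul]
    rw [← e]
    exact 𝒮.add_mem (𝒮.smul_mem _ h1) (𝒮.smul_mem _ h2)
  have hu0 : u ∈ 𝒮 := by
    have e : (-ε * (d - d ^ 2 - 1)) • (d • v + ε • u) +
        d • ((ε * (d - d ^ 2 - 1)) • v + (1 - d) • u) = u := by
      have c1 : -ε * (d - d ^ 2 - 1) * ε + d * (1 - d) = 1 := by
        linear_combination (-(d - d ^ 2 - 1)) * hε
      calc _ = (-ε * (d - d ^ 2 - 1) * ε + d * (1 - d)) • u := by module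
        _ = u := by rw [c1, one_smul]
    rw [← e]
    exact 𝒮.add_mem (𝒮.smul_mem _ h1) (𝒮.smul_mem _ h2)
  refine ⟨hu0, ?_⟩
  have hq : ∀ i < m, qg C φ ε d v u i ∈ 𝒮 := by
    intro i hi
    have := hcol (Pi.single (Sum.inr ⟨i, hi⟩) 1)
    rw [Wg_mulVec] at this
    have e : ∑ k : Fin m, (Pi.single (Sum.inr ⟨i, hi⟩) 1 : Fin 2 ⊕ Fin m → R) (Sum.inr k) •
        qg C φ ε d v u k = qg C φ ε d v u i := by
      rw [sum_eq_single (⟨i, hi⟩ : Fin m)]
      · simp
      · intro k _ hk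
        rw [Pi.single_eq_of_ne, zero_smul]
        intro h; exact hk (Sum.inr_injective h)
      · intro h; exact absurd (mem_univ _) h
    rw [e] at this
    simpa using this
  have hw : wg ε d v u ∈ 𝒮 := 𝒮.add_mem (𝒮.smul_mem _ hv0) (𝒮.smul_mem _ hu0)
  intro k
  induction k using Nat.strong_induction_on with
  | _ k ih =>
    intro hk
    rcases k with _ | i
    · simpa using hv0
    · have h2 := hq i (by omega)
      have h3 : C *ᵥ Hv C φ v i ∈ 𝒮 := by
        have := 𝒮.sub_mem h2 (𝒮.smul_mem ((-1) ^ i) hw)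
        simpa [qg] using this
      have h4 : Hv C φ v (i + 1) ∈ 𝒮 := by
        rw [Hv_succ]; exact 𝒮.add_mem h3 (𝒮.smul_mem _ hv0)
      rw [Hv] at h4
      have h5 : ∑ l ∈ range (i + 1), φ l • ((C ^ (i + 1 - 1 - l)) *ᵥ v) ∈ 𝒮 := by
        apply 𝒮.sum_mem
        intro l hl
        exact 𝒮.smul_mem _ (ih (i + 1 - 1 - l) (by omega) (by omega))
      have := 𝒮.sub_mem h4 h5
      simpa using this

end Pool.Agent.H87.Comm
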