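import Pool.Agent.H87.Comm.Fin

open Matrix Finset

namespace Pool.Agent.H87.Comm

variable {R : Type*} [CommRing R]

/-- A cyclic vector gives an almost cyclic pair. -/
theorem cyclic_almost {m : ℕ} (C : Matrix (Fin (m + 2)) (Fin (m + 2)) R) (v : Fin (m + 2) → R)
    (hv : IsUnit (Matrix.of fun (i k : Fin (m + 2)) => ((C ^ (k : ℕ)) *ᵥ v) i).det) :
    ∃ (u : Fin (m + 2) → R) (d : R), C *ᵥ u = (1 : R) • u + d • v ∧
      IsUnit (KK C v u).det := by
  rcases subsingleton_or_nontrivial R with hR | hR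
  · exact ⟨0, 0, Subsingleton.elim _ _, isUnit_of_subsingleton _⟩
  set φ : ℕ → R := fun i => C.charpoly.coeff (m + 2 - 1 - i) with hφdef
  have htop : Hv C φ v (m + 2) = 0 := Hv_top C v
  set u : Fin (m + 2) → R := ∑ k ∈ range (m + 2), Hv C φ v k with hu
  refine ⟨u, -(1 + ∑ k ∈ range (m + 2), φ k), ?_, ?_⟩
  · have h1 : C *ᵥ u = ∑ k ∈ range (m + 2), (Hv C φ v (k + 1) - φ k • v) := by
      rw [hu, mulVec_sum]
      apply sum_congr rfl
      intro k _
      rw [Hv_succ]; abel
    have h2 : ∑ k ∈ range (m + 2), Hv C φ v (k + 1) = u - v := by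
      have e1 := sum_range_succ (fun k => Hv C φ v k) (m + 2)
      have e2 := sum_range_succ' (fun k => Hv C φ v k) (m + 2)
      rw [htop, add_zero] at e1
      rw [e1, Hv_zero] at e2
      rw [hu, e2]; abel
    rw [h1, sum_sub_distrib, h2, ← sum_smul]
    module
  · set K := KK C v u with hK
    set 𝒮 := LinearMap.range K.mulVecLin with h𝒮
    have hcol : ∀ k : Fin (m + 2), (fun i => K i k) ∈ 𝒮 := by
      intro k
      refine ⟨Pi.single k 1, ?_⟩
      rw [Matrix.mulVecLin_apply, Matrix.mulVec_single_one]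
      rfl
    have hpow : ∀ k ≤ m, (C ^ k) *ᵥ v ∈ 𝒮 := by
      intro k hk
      have := hcol ⟨k, by omega⟩
      have e : (fun i => K i ⟨k, by omega⟩) = (C ^ k) *ᵥ v := by
        ext i
        rw [hK, KK, Matrix.of_apply, if_pos (by simp only; omega)]
      rwa [e] at this
    have huS : u ∈ 𝒮 := by
      have := hcol ⟨m + 1, by omega⟩
      have e : (fun i => K i ⟨m + 1, by omega⟩) = u := by
        ext i
        rw [hK, KK, Matrix.of_apply, if_neg (by simp only; omega)]
      rwa [e] at this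
    have hH : ∀ k ≤ m, Hv C φ v k ∈ 𝒮 := by
      intro k hk
      rw [Hv]
      refine 𝒮.add_mem (hpow k hk) (𝒮.sum_mem fun i hi => 𝒮.smul_mem _ (hpow _ ?_))
      have := mem_range.1 hi
      omega
    have hlast : (C ^ (m + 1)) *ᵥ v ∈ 𝒮 := by
      have e : (C ^ (m + 1)) *ᵥ v = u - ∑ k ∈ range (m + 1), Hv C φ v k -
          ∑ i ∈ range (m + 1), φ i • ((C ^ (m + 1 - 1 - i)) *ᵥ v) := by
        rw [hu, sum_range_succ _ (m + 1)]
        rw [show Hv C φ v (m + 1) = (C ^ (m + 1)) *ᵥ v +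
          ∑ i ∈ range (m + 1), φ i • ((C ^ (m + 1 - 1 - i)) *ᵥ v) from rfl]
        abel
      rw [e]
      refine 𝒮.sub_mem (𝒮.sub_mem huS (𝒮.sum_mem fun k hk => hH k ?_))
        (𝒮.sum_mem fun i hi => 𝒮.smul_mem _ (hpow _ ?_))
      · have := mem_range.1 hk; omega
      · have := mem_range.1 hi; omega
    have hall : ∀ k : Fin (m + 2), ∃ y, K *ᵥ y = (C ^ (k : ℕ)) *ᵥ v := by
      intro k
      have hk := k.2
      by_cases h1 : (k : ℕ) = m + 1
      · rw [h1]; exact hlast
      · exact hpow k (by omega)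
    choose y hy using hall
    have hKY : K * (Matrix.of fun (c k : Fin (m + 2)) => y k c) =
        Matrix.of fun (i k : Fin (m + 2)) => ((C ^ (k : ℕ)) *ᵥ v) i := by
      ext i k
      exact congrFun (hy k) i
    rw [← hKY, Matrix.det_mul] at hv
    exact isUnit_of_mul_isUnit_left hv

end Pool.Agent.H87.Comm
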