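import Pool.Agent.H87.Comm.Fin

/-! Reduction to commutators of size two: `C u = s u + s' v` with `(s, s')` the first column of
a commutator `[a, h]` of size two with `det (a - 1)` a unit. -/

open Matrix Finset

namespace Pool.Agent.H87.Comm

variable {R : Type*} [CommRing R]

theorem sylvester2 {m : ℕ} (a : Matrix (Fin 2) (Fin 2) R) (t δ : R)
    (ha : a * a - t • a + δ • (1 : Matrix (Fin 2) (Fin 2) R) = 0)
    (T U : Matrix (Fin m) (Fin m) R)
    (hU : (T * T - t • T + δ • (1 : Matrix (Fin m) (Fin m) R)) * U = 1) (hc : T * U = U * T)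
    (Q : Matrix (Fin 2) (Fin m) R) : ∃ X : Matrix (Fin 2) (Fin m) R, a * X + Q = X * T := by
  refine ⟨(a * Q - t • Q + Q * T) * U, ?_⟩
  have ha' : a * a = t • a - δ • (1 : Matrix (Fin 2) (Fin 2) R) := by
    have : a * a = (a * a - t • a + δ • (1 : Matrix (Fin 2) (Fin 2) R)) +
      (t • a - δ • (1 : Matrix (Fin 2) (Fin 2) R)) := by abel
    rw [this, ha, zero_add]
  have h1 : a * (a * Q - t • Q + Q * T) - (a * Q - t • Q + Q * T) * T =
      -(Q * (T * T - t • T + δ • (1 : Matrix (Fin m) (Fin m) R))) := by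
    have : a * (a * Q - t • Q + Q * T) = (a * a) * Q - t • (a * Q) + a * Q * T := by
      rw [Matrix.mul_add, Matrix.mul_sub, ← Matrix.mul_assoc, ← Matrix.mul_assoc,
        Matrix.mul_smul]
    rw [this, ha']
    simp only [Matrix.sub_mul, Matrix.add_mul, Matrix.mul_add, Matrix.mul_sub, Matrix.one_mul,
      Matrix.mul_one, Matrix.mul_assoc, Matrix.smul_mul, Matrix.mul_smul]
    module
  have h2 : (a * Q - t • Q + Q * T) * U * T = (a * Q - t • Q + Q * T) * T * U := by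
    rw [Matrix.mul_assoc, ← hc, ← Matrix.mul_assoc]
  have h3 : a * ((a * Q - t • Q + Q * T) * U) - (a * Q - t • Q + Q * T) * U * T = -Q := by
    rw [h2, ← Matrix.mul_assoc, ← Matrix.sub_mul, h1, Matrix.neg_mul, Matrix.mul_assoc, hU,
      Matrix.mul_one]
  have h4 : a * ((a * Q - t • Q + Q * T) * U) = (a * Q - t • Q + Q * T) * U * T - Q := by
    have := h3
    rw [sub_eq_iff_eq_add] at this
    rw [this]; abel
  rw [h4]; abel

theorem exists_U2 (m : ℕ) (t δ : R) (hf : IsUnit (1 - t + δ)) : ∃ U : Matrix (Fin m) (Fin m) R,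
    ((S R m)ᵀ * (S R m)ᵀ - t • (S R m)ᵀ + δ • (1 : Matrix (Fin m) (Fin m) R)) * U = 1 ∧
      (S R m)ᵀ * U = U * (S R m)ᵀ := by
  set N : Matrix (Fin m) (Fin m) R := (S R m)ᵀ - 1 with hN
  have hS : (S R m)ᵀ = 1 + N := by rw [hN]; abel
  have hnil : IsNilpotent N := by
    refine ⟨m, ?_⟩
    have key : ∀ k : ℕ, ∀ i j : Fin m, (j : ℕ) < i + k → (N ^ k) i j = 0 := by
      intro k
      induction k with
      | zero =>
        intro i j h
        rw [pow_zero, Matrix.one_apply_ne]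
        intro h'
        rw [h'] at h
        omega
      | succ k ih =>
        intro i j h
        rw [pow_succ, Matrix.mul_apply]
        apply Finset.sum_eq_zero
        intro l _
        by_cases hl : (l : ℕ) < i + k
        · rw [ih i l hl, zero_mul]
        · have : N l j = 0 := by
            rw [hN, Matrix.sub_apply, transpose_apply, S, Matrix.of_apply]
            by_cases h1 : j = l
            · rw [if_pos h1, h1, Matrix.one_apply_eq, sub_self]
            · rw [if_neg h1, Matrix.one_apply_ne (Ne.symm h1), sub_zero, if_neg]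
              omega
          rw [this, mul_zero]
    ext i j
    exact key m i j (by omega)
  have hcN : Commute N ((2 - t) • (1 : Matrix (Fin m) (Fin m) R) + N) :=
    ((Commute.one_right N).smul_right _).add_right (Commute.refl N)
  have hnil2 : IsNilpotent (N * ((2 - t) • (1 : Matrix (Fin m) (Fin m) R) + N)) :=
    hcN.isNilpotent_mul_right hnil
  have hc1 : IsUnit ((1 - t + δ) • (1 : Matrix (Fin m) (Fin m) R)) := by
    obtain ⟨c, hc⟩ := hf
    rw [← hc]
    refine ⟨⟨(c : R) • 1, ((c⁻¹ : Rˣ) : R) • 1, ?_, ?_⟩, rfl⟩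
    · rw [smul_mul_smul_comm, Units.mul_inv, one_smul, one_mul]
    · rw [smul_mul_smul_comm, Units.inv_mul, one_smul, one_mul]
  have hu : IsUnit ((1 - t + δ) • (1 : Matrix (Fin m) (Fin m) R) +
      N * ((2 - t) • (1 : Matrix (Fin m) (Fin m) R) + N)) :=
    hnil2.isUnit_add_left_of_commute hc1 ((Commute.one_right _).smul_right _)
  obtain ⟨u, hu⟩ := hu
  have hg : (S R m)ᵀ * (S R m)ᵀ - t • (S R m)ᵀ + δ • (1 : Matrix (Fin m) (Fin m) R) =
      (u : Matrix (Fin m) (Fin m) R) := by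
    rw [hu, hS]
    simp only [Matrix.mul_add, Matrix.add_mul, Matrix.mul_one, Matrix.one_mul, Matrix.mul_smul]
    module
  refine ⟨((u⁻¹ : (Matrix (Fin m) (Fin m) R)ˣ) : Matrix (Fin m) (Fin m) R), ?_, ?_⟩
  · rw [hg]; exact u.mul_inv
  · have hc : Commute ((S R m)ᵀ) (u : Matrix (Fin m) (Fin m) R) := by
      rw [← hg]
      have h1 : Commute ((S R m)ᵀ) ((S R m)ᵀ) := Commute.refl _
      exact ((h1.mul_right h1).sub_right (h1.smul_right _)).add_right
        ((Commute.one_right _).smul_right _)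
    exact hc.units_inv_right

theorem conj_YZ2 {m : ℕ} (z1 y1 P P' : Matrix (Fin 2) (Fin 2) R) (t δ : R)
    (hz : z1 * z1 - t • z1 + δ • (1 : Matrix (Fin 2) (Fin 2) R) = 0)
    (hy : y1 * y1 - t • y1 + δ • (1 : Matrix (Fin 2) (Fin 2) R) = 0)
    (hf : IsUnit (1 - t + δ))
    (hP : P * P' = 1) (hP' : P' * P = 1) (hyP : y1 * P = P * z1)
    (Q : Matrix (Fin 2) (Fin m) R) (L : Matrix (Fin m) (Fin 2) R) :
    ∃ B B' : Matrix (Fin 2 ⊕ Fin m) (Fin 2 ⊕ Fin m) R, B * B' = 1 ∧ B' * B = 1 ∧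
      Yg y1 L * B = B * Zg z1 Q := by
  obtain ⟨U, hU, hcU⟩ := exists_U2 (R := R) m t δ hf
  obtain ⟨X, hX⟩ := sylvester2 z1 t δ hz ((S R m)ᵀ) U hU hcU Q
  obtain ⟨X2, hX2⟩ := sylvester2 (y1ᵀ) t δ (by
    have := congrArg Matrix.transpose hy
    simpa [Matrix.transpose_mul] using this) ((S R m)ᵀ) U hU hcU (-Lᵀ)
  have hL : L + S R m * X2ᵀ = X2ᵀ * y1 := by
    have := congrArg Matrix.transpose hX2
    simp only [Matrix.transpose_add, Matrix.transpose_mul, Matrix.transpose_transpose,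
      Matrix.transpose_neg] at this
    rw [← this]; abel
  have d1 : fromBlocks P 0 0 (J R m) * fromBlocks P' 0 0 (J R m) = 1 := by
    rw [fromBlocks_multiply]
    simp only [hP, J_sq, Matrix.mul_zero, Matrix.zero_mul, add_zero, zero_add]
    exact fromBlocks_one
  have d2 : fromBlocks P' 0 0 (J R m) * fromBlocks P 0 0 (J R m) = 1 := by
    rw [fromBlocks_multiply]
    simp only [hP', J_sq, Matrix.mul_zero, Matrix.zero_mul, add_zero, zero_add]
    exact fromBlocks_one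
  have u1 : (fromBlocks 1 0 X2ᵀ 1 : Matrix (Fin 2 ⊕ Fin m) (Fin 2 ⊕ Fin m) R) *
      fromBlocks 1 0 (-X2ᵀ) 1 = 1 := by
    rw [fromBlocks_multiply]
    simp
  have u2 : (fromBlocks 1 0 (-X2ᵀ) 1 : Matrix (Fin 2 ⊕ Fin m) (Fin 2 ⊕ Fin m) R) *
      fromBlocks 1 0 X2ᵀ 1 = 1 := by
    rw [fromBlocks_multiply]
    simp
  have v1 : (fromBlocks 1 (-X) 0 1 : Matrix (Fin 2 ⊕ Fin m) (Fin 2 ⊕ Fin m) R) *
      fromBlocks 1 X 0 1 = 1 := by
    rw [fromBlocks_multiply]
    simp
  have v2 : (fromBlocks 1 X 0 1 : Matrix (Fin 2 ⊕ Fin m) (Fin 2 ⊕ Fin m) R) *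
      fromBlocks 1 (-X) 0 1 = 1 := by
    rw [fromBlocks_multiply]
    simp
  have e1 : Yg y1 L * fromBlocks 1 0 X2ᵀ 1 = fromBlocks 1 0 X2ᵀ 1 * fromBlocks y1 0 0 (S R m) := by
    rw [Yg, fromBlocks_multiply, fromBlocks_multiply]
    simp [hL]
  have e2 : fromBlocks y1 0 0 (S R m) * fromBlocks P 0 0 (J R m) =
      fromBlocks P 0 0 (J R m) * fromBlocks z1 0 0 ((S R m)ᵀ) := by
    rw [fromBlocks_multiply, fromBlocks_multiply]
    simp [hyP, S_J]
  have e3 : fromBlocks z1 0 0 ((S R m)ᵀ) * fromBlocks 1 (-X) 0 1 =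
      fromBlocks 1 (-X) 0 1 * Zg z1 Q := by
    rw [Zg, fromBlocks_multiply, fromBlocks_multiply]
    have : -(z1 * X) = Q + -(X * (S R m)ᵀ) := by rw [← hX]; abel
    simp [this]
  refine ⟨fromBlocks 1 0 X2ᵀ 1 * fromBlocks P 0 0 (J R m) * fromBlocks 1 (-X) 0 1,
    fromBlocks 1 X 0 1 * fromBlocks P' 0 0 (J R m) * fromBlocks 1 0 (-X2ᵀ) 1, ?_, ?_, ?_⟩
  · calc _ = fromBlocks 1 0 X2ᵀ 1 * (fromBlocks P 0 0 (J R m) *
          (fromBlocks 1 (-X) 0 1 * fromBlocks 1 X 0 1) * fromBlocks P' 0 0 (J R m)) *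
          fromBlocks 1 0 (-X2ᵀ) 1 := by simp only [Matrix.mul_assoc]
      _ = 1 := by rw [v1, Matrix.mul_one, d1, Matrix.mul_one, u1]
  · calc _ = fromBlocks 1 X 0 1 * (fromBlocks P' 0 0 (J R m) *
          (fromBlocks 1 0 (-X2ᵀ) 1 * fromBlocks 1 0 X2ᵀ 1) * fromBlocks P 0 0 (J R m)) *
          fromBlocks 1 (-X) 0 1 := by simp only [Matrix.mul_assoc]
      _ = 1 := by rw [u2, Matrix.mul_one, d2, Matrix.mul_one, v2]
  · calc _ = (Yg y1 L * fromBlocks 1 0 X2ᵀ 1) * fromBlocks P 0 0 (J R m) *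
          fromBlocks 1 (-X) 0 1 := by simp only [Matrix.mul_assoc]
      _ = fromBlocks 1 0 X2ᵀ 1 * (fromBlocks y1 0 0 (S R m) * fromBlocks P 0 0 (J R m)) *
          fromBlocks 1 (-X) 0 1 := by rw [e1]; simp only [Matrix.mul_assoc]
      _ = fromBlocks 1 0 X2ᵀ 1 * fromBlocks P 0 0 (J R m) *
          (fromBlocks z1 0 0 ((S R m)ᵀ) * fromBlocks 1 (-X) 0 1) := by
            rw [e2]; simp only [Matrix.mul_assoc]
      _ = _ := by rw [e3]; simp only [Matrix.mul_assoc]

theorem Zg_unit2 {m : ℕ} (z1 : Matrix (Fin 2) (Fin 2) R) (hz : IsUnit z1)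
    (Q : Matrix (Fin 2) (Fin m) R) : IsUnit (Zg z1 Q) := by
  rw [Zg, isUnit_fromBlocks_zero₂₁]
  refine ⟨hz, ?_⟩
  rw [Matrix.isUnit_iff_isUnit_det, Matrix.det_of_isUpperTriangular]
  · simp [S]
  · intro i j h
    simp only [id_eq] at h
    rw [transpose_apply, S, Matrix.of_apply, if_neg, if_neg]
    · have : (j : ℕ) < i := h
      omega
    · intro h'; rw [h'] at h; exact lt_irrefl _ h

/-- the twisting vector -/
def w2 {n : ℕ} (s : Matrix (Fin 2) (Fin 2) R) (v u : Fin n → R) : Fin n → R :=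
  -(s 0 1 • u + s 1 1 • v)

def q2 {n : ℕ} (C : Matrix (Fin n) (Fin n) R) (φ : ℕ → R) (s : Matrix (Fin 2) (Fin 2) R)
    (v u : Fin n → R) (i : ℕ) : Fin n → R :=
  C *ᵥ Hv C φ v i + ((-1 : R) ^ i) • w2 s v u

def W2 {n : ℕ} (C : Matrix (Fin n) (Fin n) R) (φ : ℕ → R) (s : Matrix (Fin 2) (Fin 2) R)
    (v u : Fin n → R) (m : ℕ) : Matrix (Fin n) (Fin 2 ⊕ Fin m) R :=
  Matrix.of fun r c => Sum.elim (fun j => (![u, v] : Fin 2 → Fin n → R) j)
    (fun k : Fin m => q2 C φ s v u k) c r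

theorem W2_mulVec {n : ℕ} (C : Matrix (Fin n) (Fin n) R) (φ : ℕ → R)
    (s : Matrix (Fin 2) (Fin 2) R) (v u : Fin n → R) (m : ℕ) (z : Fin 2 ⊕ Fin m → R) :
    W2 C φ s v u m *ᵥ z = z (Sum.inl 0) • u + z (Sum.inl 1) • v +
      ∑ k : Fin m, z (Sum.inr k) • q2 C φ s v u k := by
  ext r
  simp only [mulVec, dotProduct, Fintype.sum_sum_type, Fin.sum_univ_two, W2, Matrix.of_apply,
    Sum.elim_inl, Sum.elim_inr, Pi.add_apply, Pi.smul_apply, Finset.sum_apply, smul_eq_mul]
  congr 1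
  · simp; ring
  · apply sum_congr rfl; intro k _; ring

/-- coordinates in the basis `u, v` of the coupling vectors -/
def X2 (φ : ℕ → R) (s : Matrix (Fin 2) (Fin 2) R) (z : R) (m : ℕ) : Matrix (Fin 2) (Fin m) R :=
  Matrix.of fun j i =>
    if j = 0 then
      (if (i : ℕ) = 0 then s 0 1 else 0) + (if (i : ℕ) + 1 = m then z else 0)
    else
      (if (i : ℕ) = 0 then φ 0 + 1 + s 1 1 else φ i + φ (i - 1))

def L2 (z1 : Matrix (Fin 2) (Fin 2) R) (m : ℕ) : Matrix (Fin m) (Fin 2) R :=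
  Matrix.of fun i j => if (i : ℕ) = 0 then z1 1 j else 0

theorem relation2 {m : ℕ} (hm : 1 ≤ m) (C : Matrix (Fin (m + 2)) (Fin (m + 2)) R) (φ : ℕ → R)
    (v u : Fin (m + 2) → R) (s y1 z1 : Matrix (Fin 2) (Fin 2) R) (hs : s * z1 = y1)
    (hdet : s.det = 1) (z α β : R)
    (hu : C *ᵥ u = s 0 0 • u + s 1 0 • v) (htop : C *ᵥ Hv C φ v m = α • v + β • u)
    (hαβ : (-1) ^ m * (α * s 0 0 - β * s 1 0) = 1)
    (hz : z = -(s 1 1 * (β - (-1) ^ m * s 0 1) - s 0 1 * (α - (-1) ^ m * s 1 1))) :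
    C * W2 C φ s v u m * Zg z1 (X2 φ s z m) = W2 C φ s v u m * Yg y1 (L2 z1 m) := by
  set T := C.mulVecLin with hT
  have hTx : ∀ x, C *ᵥ x = T x := fun x => rfl
  have hTu : T u = s 0 0 • u + s 1 0 • v := hu
  have hH0 : Hv C φ v 0 = v := Hv_zero C φ v
  have hHs : ∀ k, Hv C φ v (k + 1) = T (Hv C φ v k) + φ k • v := fun k => Hv_succ C φ v k
  have hH1 : Hv C φ v 1 = T v + φ 0 • v := by rw [hHs 0, hH0]
  have hq : ∀ i, q2 C φ s v u i = T (Hv C φ v i) + ((-1 : R) ^ i) • w2 s v u := fun i => rfl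
  have hw : w2 s v u = -(s 0 1 • u + s 1 1 • v) := rfl
  have hmm : ((-1 : R) ^ m) * (-1) ^ m = 1 := by rw [← mul_pow]; norm_num
  have hσ : s 0 0 * s 1 1 - s 0 1 * s 1 0 = 1 := by rw [← Matrix.det_fin_two]; exact hdet
  -- the last vector
  have hqm : q2 C φ s v u m = (-z) • T u := by
    have h1 : T (Hv C φ v m) = α • v + β • u := htop
    rw [hq, h1, hw, hTu]
    have h0 : s 0 0 * (α - (-1) ^ m * s 1 1) - s 1 0 * (β - (-1) ^ m * s 0 1) = 0 := by
      linear_combination (-1) ^ m * hαβ - (-1) ^ m * hσ - (α * s 0 0 - β * s 1 0) * hmm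
    have c1 : β - (-1) ^ m * s 0 1 = -z * s 0 0 := by
      rw [hz]
      linear_combination (-(β - (-1) ^ m * s 0 1)) * hσ + (s 0 1) * h0
    have c2 : α - (-1) ^ m * s 1 1 = -z * s 1 0 := by
      rw [hz]
      linear_combination (-(α - (-1) ^ m * s 1 1)) * hσ + (s 1 1) * h0
    calc α • v + β • u + ((-1 : R) ^ m) • (-(s 0 1 • u + s 1 1 • v))
        = (β - (-1) ^ m * s 0 1) • u + (α - (-1) ^ m * s 1 1) • v := by module
      _ = (-z * s 0 0) • u + (-z * s 1 0) • v := by rw [c1, c2]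
      _ = _ := by module
  have hqm' : ∀ k, k = m → q2 C φ s v u k = (-z) • T u := by
    intro k hk; rw [hk]; exact hqm
  -- recursion
  have hrec : ∀ i, q2 C φ s v u (i + 2) = T (q2 C φ s v u (i + 1)) - q2 C φ s v u (i + 1) +
      T (q2 C φ s v u i) + (φ (i + 1) + φ i) • T v := by
    intro i
    rw [hq (i + 2), hq (i + 1), hq i, hHs (i + 1), hHs i]
    simp only [map_add, map_smul, pow_succ]
    module
  have hrec0 : q2 C φ s v u 1 = T (q2 C φ s v u 0) - q2 C φ s v u 0 +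
      T ((φ 0 + 1) • v - w2 s v u) := by
    rw [hq 1, hq 0, hH1, hH0]
    simp only [map_add, map_smul, map_sub, pow_succ, pow_zero]
    module
  have hq0 : q2 C φ s v u 0 = T v + w2 s v u := by
    rw [hq 0, hH0, pow_zero, one_smul]
  have hcol : ∀ (A : Matrix (Fin 2 ⊕ Fin m) (Fin 2 ⊕ Fin m) R) (r : Fin (m + 2))
      (c : Fin 2 ⊕ Fin m), (W2 C φ s v u m * A) r c =
        (W2 C φ s v u m *ᵥ (fun k => A k c)) r :=
    fun A r c => rfl
  have hcol2 : ∀ (A : Matrix (Fin 2 ⊕ Fin m) (Fin 2 ⊕ Fin m) R) (r : Fin (m + 2))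
      (c : Fin 2 ⊕ Fin m), (C * W2 C φ s v u m * A) r c =
        (T (W2 C φ s v u m *ᵥ (fun k => A k c))) r := by
    intro A r c
    rw [Matrix.mul_assoc]
    rfl
  have key : ∀ c : Fin 2 ⊕ Fin m,
      T (W2 C φ s v u m *ᵥ (fun k => Zg z1 (X2 φ s z m) k c)) =
      W2 C φ s v u m *ᵥ (fun k => Yg y1 (L2 z1 m) k c) := by
    intro c
    rw [W2_mulVec, W2_mulVec]
    rcases c with c | i
    · simp only [Zg, Yg, fromBlocks_apply₁₁, fromBlocks_apply₂₁]
      have hsum : ∑ x : Fin m, (L2 z1 m) x c • q2 C φ s v u x = z1 1 c • q2 C φ s v u 0 := by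
        rw [sum_eq_single (⟨0, hm⟩ : Fin m)]
        · simp [L2]
        · intro k _ hk
          rw [L2, Matrix.of_apply, if_neg, zero_smul]
          intro h; exact hk (Fin.ext h)
        · intro h; exact absurd (mem_univ _) h
      have e0 : y1 0 c = s 0 0 * z1 0 c + s 0 1 * z1 1 c := by
        rw [← hs, Matrix.mul_apply, Fin.sum_univ_two]
      have e1 : y1 1 c = s 1 0 * z1 0 c + s 1 1 * z1 1 c := by
        rw [← hs, Matrix.mul_apply, Fin.sum_univ_two]
      simp only [Matrix.zero_apply, zero_smul, sum_const_zero, add_zero]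
      rw [hsum, hq0, hw, e0, e1, map_add, map_smul, map_smul, hTu]
      module
    · simp only [Zg, Yg, fromBlocks_apply₁₂, fromBlocks_apply₂₂]
      rw [sum_S (fun k => q2 C φ s v u k) i, sum_ST (fun k => q2 C φ s v u k) i]
      simp only [Matrix.zero_apply, zero_smul, zero_add]
      have hX0 : X2 φ s z m 0 i = (if (i : ℕ) = 0 then s 0 1 else 0) +
          (if (i : ℕ) + 1 = m then z else 0) := by simp [X2]
      have hX1 : X2 φ s z m 1 i = (if (i : ℕ) = 0 then φ 0 + 1 + s 1 1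
          else φ i + φ (i - 1)) := by simp [X2]
      rw [hX0, hX1]
      obtain ⟨i, hi⟩ := i
      simp only
      rcases i with _ | j
      · rw [if_pos rfl, if_pos rfl, if_neg (lt_irrefl 0)]
        by_cases h1 : 0 + 1 < m
        · rw [if_neg (by omega), if_pos h1]
          simp only [zero_add]
          rw [hrec0, hw]
          simp only [map_add, map_smul, map_sub, map_neg, map_zero]
          module
        · have hm1 : m = 1 := by omega
          rw [if_pos (by omega), if_neg h1]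
          have e2 := hqm' 1 hm1.symm
          rw [hrec0, hw] at e2
          simp only [map_add, map_smul, map_sub, map_neg, map_zero] at e2 ⊢
          have e3 : T (q2 C φ s v u 0) = (-z) • T u + q2 C φ s v u 0 -
              ((φ 0 + 1) • T v - -(s 0 1 • T u + s 1 1 • T v)) := by
            rw [← e2]; abel
          rw [e3]
          module
      · rw [if_neg (show ¬ (j + 1 = 0) by omega), if_neg (show ¬ (j + 1 = 0) by omega),
          if_pos (show 0 < j + 1 by omega)]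
        simp only [add_tsub_cancel_right]
        by_cases h1 : j + 1 + 1 < m
        · rw [if_neg (show ¬ (j + 1 + 1 = m) by omega), if_pos h1]
          rw [hrec j]
          simp only [map_add, map_smul]
          module
        · have hm1 : m = j + 2 := by omega
          rw [if_pos (show j + 1 + 1 = m by omega), if_neg h1]
          have e2 := hqm' _ hm1.symm
          rw [hrec j] at e2
          simp only [map_add, map_smul]
          have e3 : T (q2 C φ s v u (j + 1)) = (-z) • T u +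
              q2 C φ s v u (j + 1) - T (q2 C φ s v u j) - (φ (j + 1) + φ j) • T v := by
            rw [← e2]; abel
          rw [e3]
          module
  ext r c
  rw [hcol, hcol2]
  exact congrFun (key c) r

theorem pow_mem2 {m : ℕ} (C : Matrix (Fin (m + 2)) (Fin (m + 2)) R) (φ : ℕ → R)
    (s : Matrix (Fin 2) (Fin 2) R) (v u : Fin (m + 2) → R) :
    u ∈ LinearMap.range (W2 C φ s v u m).mulVecLin ∧
    ∀ k ≤ m, (C ^ k) *ᵥ v ∈ LinearMap.range (W2 C φ s v u m).mulVecLin := by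
  set 𝒮 := LinearMap.range (W2 C φ s v u m).mulVecLin with h𝒮
  have hcol : ∀ z, W2 C φ s v u m *ᵥ z ∈ 𝒮 := fun z => ⟨z, rfl⟩
  have hu0 : u ∈ 𝒮 := by
    have := hcol (Pi.single (Sum.inl 0) 1)
    rw [W2_mulVec] at this
    simpa using this
  have hv0 : v ∈ 𝒮 := by
    have := hcol (Pi.single (Sum.inl 1) 1)
    rw [W2_mulVec] at this
    simpa using this
  refine ⟨hu0, ?_⟩
  have hq : ∀ i < m, q2 C φ s v u i ∈ 𝒮 := by
    intro i hi
    have := hcol (Pi.single (Sum.inr ⟨i, hi⟩) 1)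
    rw [W2_mulVec] at this
    have e : ∑ k : Fin m, (Pi.single (Sum.inr ⟨i, hi⟩) 1 : Fin 2 ⊕ Fin m → R) (Sum.inr k) •
        q2 C φ s v u k = q2 C φ s v u i := by
      rw [sum_eq_single (⟨i, hi⟩ : Fin m)]
      · simp
      · intro k _ hk
        rw [Pi.single_eq_of_ne, zero_smul]
        intro h; exact hk (Sum.inr_injective h)
      · intro h; exact absurd (mem_univ _) h
    rw [e] at this
    simpa using this
  have hw : w2 s v u ∈ 𝒮 := 𝒮.neg_mem (𝒮.add_mem (𝒮.smul_mem _ hu0) (𝒮.smul_mem _ hv0))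
  intro k
  induction k using Nat.strong_induction_on with
  | _ k ih =>
    intro hk
    rcases k with _ | i
    · simpa using hv0
    · have h2 := hq i (by omega)
      have h3 : C *ᵥ Hv C φ v i ∈ 𝒮 := by
        have := 𝒮.sub_mem h2 (𝒮.smul_mem ((-1) ^ i) hw)
        simpa [q2] using this
      have h4 : Hv C φ v (i + 1) ∈ 𝒮 := by
        rw [Hv_succ]; exact 𝒮.add_mem h3 (𝒮.smul_mem _ hv0)
      rw [Hv] at h4
      have h5 : ∑ l ∈ range (i + 1), φ l • ((C ^ (i + 1 - 1 - l)) *ᵥ v) ∈ 𝒮 := by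
        apply 𝒮.sum_mem
        intro l hl
        exact 𝒮.smul_mem _ (ih (i + 1 - 1 - l) (by omega) (by omega))
      have := 𝒮.sub_mem h4 h5
      simpa using this

end Pool.Agent.H87.Comm
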