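import Pool.Agent.H87.Comm.Two
import Pool.Agent.H87.Comm.Incl

open Matrix Finset

namespace Pool.Agent.H87.Comm

variable {R : Type*} [CommRing R]

theorem cayley2 (z : Matrix (Fin 2) (Fin 2) R) :
    z * z - (z.trace) • z + z.det • (1 : Matrix (Fin 2) (Fin 2) R) = 0 := by
  ext i j
  fin_cases i <;> fin_cases j <;>
    simp [Matrix.mul_apply, Fin.sum_univ_two, Matrix.trace_fin_two, Matrix.det_fin_two] <;> ring

theorem gen_commutator2 {m : ℕ} (hm : 1 ≤ m) (C : Matrix (Fin (m + 2)) (Fin (m + 2)) R)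
    (hC : C.det = 1) (v u : Fin (m + 2) → R) (a h : (Matrix (Fin 2) (Fin 2) R)ˣ)
    (hf : IsUnit ((a : Matrix (Fin 2) (Fin 2) R) - 1).det)
    (hu : C *ᵥ u = ((a * h * a⁻¹ * h⁻¹ : (Matrix (Fin 2) (Fin 2) R)ˣ) :
        Matrix (Fin 2) (Fin 2) R) 0 0 • u + ((a * h * a⁻¹ * h⁻¹ : (Matrix (Fin 2) (Fin 2) R)ˣ) :
        Matrix (Fin 2) (Fin 2) R) 1 0 • v)
    (hb : IsUnit (KK C v u).det) :
    ∃ A B : (Matrix (Fin (m + 2)) (Fin (m + 2)) R)ˣ,
      ((A * B * A⁻¹ * B⁻¹ : (Matrix (Fin (m + 2)) (Fin (m + 2)) R)ˣ) :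
        Matrix (Fin (m + 2)) (Fin (m + 2)) R) = C := by
  set s : Matrix (Fin 2) (Fin 2) R := ((a * h * a⁻¹ * h⁻¹ : (Matrix (Fin 2) (Fin 2) R)ˣ) :
        Matrix (Fin 2) (Fin 2) R) with hs
  set ε : R := s 0 0 with hεdef
  set d : R := s 1 0 with hddef
  have hsdet : s.det = 1 := by
    have e : ∀ x : (Matrix (Fin 2) (Fin 2) R)ˣ,
        (x : Matrix (Fin 2) (Fin 2) R).det * ((x⁻¹ : (Matrix (Fin 2) (Fin 2) R)ˣ) :
          Matrix (Fin 2) (Fin 2) R).det = 1 := by
      intro x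
      rw [← Matrix.det_mul, Units.mul_inv, Matrix.det_one]
    rw [hs, Units.val_mul, Units.val_mul, Units.val_mul, Matrix.det_mul, Matrix.det_mul,
      Matrix.det_mul]
    linear_combination (h : Matrix (Fin 2) (Fin 2) R).det *
      ((h⁻¹ : (Matrix (Fin 2) (Fin 2) R)ˣ) : Matrix (Fin 2) (Fin 2) R).det * e a + e h
  set z1 : Matrix (Fin 2) (Fin 2) R := ((h * a * h⁻¹ : (Matrix (Fin 2) (Fin 2) R)ˣ) :
        Matrix (Fin 2) (Fin 2) R) with hz1def
  have hsz : s * z1 = (a : Matrix (Fin 2) (Fin 2) R) := by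
    rw [hs, hz1def, ← Units.val_mul]
    congr 1
    group
  have hyP : (a : Matrix (Fin 2) (Fin 2) R) *
      ((h⁻¹ : (Matrix (Fin 2) (Fin 2) R)ˣ) : Matrix (Fin 2) (Fin 2) R) =
      ((h⁻¹ : (Matrix (Fin 2) (Fin 2) R)ˣ) : Matrix (Fin 2) (Fin 2) R) * z1 := by
    rw [hz1def, ← Units.val_mul, ← Units.val_mul]
    congr 1
    group
  set t : R := (a : Matrix (Fin 2) (Fin 2) R).trace with ht
  set δ : R := (a : Matrix (Fin 2) (Fin 2) R).det with hδ
  have ha2 := cayley2 (a : Matrix (Fin 2) (Fin 2) R)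
  have hz2 : z1 * z1 - t • z1 + δ • (1 : Matrix (Fin 2) (Fin 2) R) = 0 := by
    have ez : z1 = (h : Matrix (Fin 2) (Fin 2) R) * (a : Matrix (Fin 2) (Fin 2) R) *
        ((h⁻¹ : (Matrix (Fin 2) (Fin 2) R)ˣ) : Matrix (Fin 2) (Fin 2) R) := by
      rw [hz1def, Units.val_mul, Units.val_mul]
    have hh : ((h⁻¹ : (Matrix (Fin 2) (Fin 2) R)ˣ) : Matrix (Fin 2) (Fin 2) R) *
        (h : Matrix (Fin 2) (Fin 2) R) = 1 := h.inv_mul
    have hh' : (h : Matrix (Fin 2) (Fin 2) R) *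
        ((h⁻¹ : (Matrix (Fin 2) (Fin 2) R)ˣ) : Matrix (Fin 2) (Fin 2) R) = 1 := h.mul_inv
    have e1 : (h : Matrix (Fin 2) (Fin 2) R) * ((a : Matrix (Fin 2) (Fin 2) R) *
        (a : Matrix (Fin 2) (Fin 2) R) - t • (a : Matrix (Fin 2) (Fin 2) R) +
        δ • (1 : Matrix (Fin 2) (Fin 2) R)) *
        ((h⁻¹ : (Matrix (Fin 2) (Fin 2) R)ˣ) : Matrix (Fin 2) (Fin 2) R) = 0 := by
      rw [ha2, Matrix.mul_zero, Matrix.zero_mul]
    rw [← e1, ez]
    simp only [Matrix.mul_add, Matrix.mul_sub, Matrix.add_mul, Matrix.sub_mul, Matrix.mul_smul,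
      Matrix.smul_mul, Matrix.mul_one]
    rw [hh']
    congr 2
    calc _ = (h : Matrix (Fin 2) (Fin 2) R) * (a : Matrix (Fin 2) (Fin 2) R) *
          (((h⁻¹ : (Matrix (Fin 2) (Fin 2) R)ˣ) : Matrix (Fin 2) (Fin 2) R) *
            (h : Matrix (Fin 2) (Fin 2) R)) * (a : Matrix (Fin 2) (Fin 2) R) *
          ((h⁻¹ : (Matrix (Fin 2) (Fin 2) R)ˣ) : Matrix (Fin 2) (Fin 2) R) := by
            simp only [Matrix.mul_assoc]
      _ = _ := by rw [hh, Matrix.mul_one]; simp only [Matrix.mul_assoc]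
  have hf' : IsUnit (1 - t + δ) := by
    have : ((a : Matrix (Fin 2) (Fin 2) R) - 1).det = 1 - t + δ := by
      rw [ht, hδ, Matrix.det_fin_two, Matrix.det_fin_two, Matrix.trace_fin_two]
      simp
      ring
    rw [← this]; exact hf
  set K := KK C v u with hK
  have hKi : K * K⁻¹ = 1 := Matrix.mul_nonsing_inv K hb
  set x0 : Fin (m + 2) → R := K⁻¹ *ᵥ ((C ^ (m + 1)) *ᵥ v) with hx0
  set x : ℕ → R := fun j => if h : j < m + 2 then x0 ⟨j, h⟩ else 0 with hx
  have hxx : (fun k : Fin (m + 2) => x k) = x0 := by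
    ext k; simp [hx]
  have hKx : K *ᵥ (fun k : Fin (m + 2) => x k) = (C ^ (m + 1)) *ᵥ v := by
    rw [hxx, hx0, mulVec_mulVec, hKi, one_mulVec]
  have hexp := KK_mulVec C v u x
  rw [← hK, hKx] at hexp
  -- companion relation
  have hCK : C * K = K * DD m d ε x := by
    have hc1 : ∀ (r k), (C * K) r k = (C *ᵥ (fun i => K i k)) r := fun r k => rfl
    have hc2 : ∀ (r k), (K * DD m d ε x) r k = (K *ᵥ (fun i => DD m d ε x i k)) r :=
      fun r k => rfl
    ext r k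
    rw [hc1, hc2]
    apply congrFun
    by_cases h1 : (k : ℕ) = m + 1
    · have e1 : (fun i => K i k) = u := by
        ext i; rw [hK, KK, Matrix.of_apply, if_neg (by omega)]
      have e2 : (fun i => DD m d ε x i k) = (fun i : Fin (m + 2) =>
          (fun j : ℕ => if j = 0 then d else if j = m + 1 then ε else 0) (i : ℕ)) := by
        ext i; rw [DD, Matrix.of_apply, if_pos h1]
      rw [e1, e2, hK, KK_mulVec C v u
        (fun j : ℕ => if j = 0 then d else if j = m + 1 then ε else 0), hu]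
      rw [Finset.sum_eq_single 0]
      · simp [add_comm]
      · intro b hb hb0
        have := mem_range.1 hb
        rw [if_neg hb0, if_neg (by omega), zero_smul]
      · intro h; exact absurd (mem_range.2 (by omega)) h
    · have hk := k.2
      have e1 : (fun i => K i k) = (C ^ (k : ℕ)) *ᵥ v := by
        ext i; rw [hK, KK, Matrix.of_apply, if_pos (by omega)]
      rw [e1, mulVec_mulVec, ← pow_succ']
      by_cases h2 : (k : ℕ) = m
      · have e2 : (fun i => DD m d ε x i k) = (fun i : Fin (m + 2) => x i) := by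
          ext i; rw [DD, Matrix.of_apply, if_neg h1, if_pos h2]
        rw [e2, hKx, h2]
      · have e2 : (fun i => DD m d ε x i k) = (fun i : Fin (m + 2) =>
            (fun j : ℕ => if j = (k : ℕ) + 1 then (1 : R) else 0) (i : ℕ)) := by
          ext i; rw [DD, Matrix.of_apply, if_neg h1, if_neg h2]
        rw [e2, hK, KK_mulVec C v u (fun j : ℕ => if j = (k : ℕ) + 1 then (1 : R) else 0)]
        rw [Finset.sum_eq_single ((k : ℕ) + 1)]
        · rw [if_pos rfl, one_smul, if_neg (by omega), zero_smul, add_zero]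
        · intro b _ hb0
          rw [if_neg hb0, zero_smul]
        · intro h; exact absurd (mem_range.2 (by omega)) h
  have hdet : (-1) ^ m * (x 0 * ε - x (m + 1) * d) = 1 := by
    rw [← det_DD d ε m x]
    have := congrArg Matrix.det hCK
    rw [Matrix.det_mul, Matrix.det_mul, hC, one_mul] at this
    obtain ⟨w, hw⟩ := hb
    have h3 : (w : R) * 1 = w * (DD m d ε x).det := by rw [hw, mul_one]; exact this
    exact (Units.mul_right_inj w).1 h3.symm
  set φ : ℕ → R := fun i => - x (m - i) with hφ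
  have htop : C *ᵥ Hv C φ v m = x 0 • v + x (m + 1) • u := by
    have h1 : C *ᵥ Hv C φ v m = (C ^ (m + 1)) *ᵥ v -
        ∑ i ∈ range m, x (i + 1) • ((C ^ (i + 1)) *ᵥ v) := by
      rw [Hv, mulVec_add, mulVec_mulVec, ← pow_succ', mulVec_sum, sub_eq_add_neg]
      congr 1
      rw [← sum_neg_distrib, ← sum_range_reflect]
      apply sum_congr rfl
      intro i hi
      have hi' := mem_range.1 hi
      rw [mulVec_smul, mulVec_mulVec, ← pow_succ', hφ]
      have e1 : m - (m - 1 - i) = i + 1 := by omega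
      have e2 : m - 1 - (m - 1 - i) + 1 = i + 1 := by omega
      simp only
      rw [e1, e2, neg_smul]
    rw [h1, hexp, sum_range_succ']
    simp only [pow_zero, one_mulVec]
    abel
  set z0 : R := -(s 1 1 * (x (m + 1) - (-1) ^ m * s 0 1) - s 0 1 * (x 0 - (-1) ^ m * s 1 1))
    with hz0
  have hrel := relation2 hm C φ v u s (a : Matrix (Fin 2) (Fin 2) R) z1 hsz hsdet z0 (x 0)
    (x (m + 1)) hu htop hdet hz0
  obtain ⟨B, B', hB1, hB2, hYZ⟩ := conj_YZ2 z1 (a : Matrix (Fin 2) (Fin 2) R)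
    ((h⁻¹ : (Matrix (Fin 2) (Fin 2) R)ˣ) : Matrix (Fin 2) (Fin 2) R)
    (h : Matrix (Fin 2) (Fin 2) R) t δ hz2 ha2 hf' h.inv_mul h.mul_inv hyP
    (X2 φ s z0 m) (L2 z1 m)
  obtain ⟨z, hz⟩ := Zg_unit2 z1 (by rw [hz1def]; exact Units.isUnit _) (X2 φ s z0 m)
  set Wm := W2 C φ s v u m with hWm
  set Zm := Zg z1 (X2 φ s z0 m) with hZm
  set Ym := Yg (a : Matrix (Fin 2) (Fin 2) R) (L2 z1 m) with hYm
  obtain ⟨hmu, hmem⟩ := pow_mem2 C φ s v u
  have hcolK : ∀ k : Fin (m + 2), ∃ y, (W2 C φ s v u m).mulVecLin y = fun i => K i k := by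
    intro k
    apply LinearMap.mem_range.1
    by_cases h1 : (k : ℕ) < m + 1
    · have e : (fun i => K i k) = (C ^ (k : ℕ)) *ᵥ v := by
        ext i; rw [hK, KK, Matrix.of_apply, if_pos h1]
      rw [e]; exact hmem k (by omega)
    · have e : (fun i => K i k) = u := by
        ext i; rw [hK, KK, Matrix.of_apply, if_neg h1]
      rw [e]; exact hmu
  choose y hy using hcolK
  have hWU : Wm * (Matrix.of fun (c : Fin 2 ⊕ Fin m) (k : Fin (m + 2)) => y k c) = K := by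
    ext i k
    have := congrFun (hy k) i
    rw [← this]
    rfl
  set V : Matrix (Fin 2 ⊕ Fin m) (Fin (m + 2)) R :=
    (Matrix.of fun (c : Fin 2 ⊕ Fin m) (k : Fin (m + 2)) => y k c) * K⁻¹ with hV
  have hWV : Wm * V = 1 := by rw [hV, ← Matrix.mul_assoc, hWU, hKi]
  have hVW : V * Wm = 1 := by
    have e : Fin (m + 2) ≃ Fin 2 ⊕ Fin m :=
      ((finSumFinEquiv (m := 2) (n := m)).trans (finCongr (by omega))).symm
    exact (Matrix.mul_eq_one_comm_of_equiv e).1 hWV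
  have tr : ∀ M N : Matrix (Fin 2 ⊕ Fin m) (Fin 2 ⊕ Fin m) R,
      (Wm * M * V) * (Wm * N * V) = Wm * (M * N) * V := by
    intro M N
    calc (Wm * M * V) * (Wm * N * V) = Wm * M * (V * Wm) * N * V := by
          simp only [Matrix.mul_assoc]
      _ = Wm * (M * N) * V := by rw [hVW]; simp only [Matrix.mul_assoc, Matrix.one_mul]
  have tr1 : Wm * (1 : Matrix (Fin 2 ⊕ Fin m) (Fin 2 ⊕ Fin m) R) * V = 1 := by
    rw [Matrix.mul_one, hWV]
  set zi : Matrix (Fin 2 ⊕ Fin m) (Fin 2 ⊕ Fin m) R :=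
    ((z⁻¹ : (Matrix (Fin 2 ⊕ Fin m) (Fin 2 ⊕ Fin m) R)ˣ) :
      Matrix (Fin 2 ⊕ Fin m) (Fin 2 ⊕ Fin m) R) with hzi
  have hz1 : Zm * zi = 1 := by rw [← hz, hzi]; exact z.mul_inv
  have hz2 : zi * Zm = 1 := by rw [← hz, hzi]; exact z.inv_mul
  have hY : Ym = B * Zm * B' := by
    rw [← hYZ, Matrix.mul_assoc, hB1, Matrix.mul_one]
  have hCW : C = Wm * (B * Zm * B' * zi) * V := by
    calc C = C * (Wm * V) := by rw [hWV, Matrix.mul_one]
      _ = C * Wm * (Zm * zi) * V := by rw [hz1, Matrix.mul_one, Matrix.mul_assoc]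
      _ = (C * Wm * Zm) * zi * V := by simp only [Matrix.mul_assoc]
      _ = Wm * (B * Zm * B' * zi) * V := by
          rw [hrel, hY]; simp only [Matrix.mul_assoc]
  refine ⟨⟨Wm * B * V, Wm * B' * V, by rw [tr, hB1, tr1], by rw [tr, hB2, tr1]⟩,
    ⟨Wm * Zm * V, Wm * zi * V, by rw [tr, hz1, tr1], by rw [tr, hz2, tr1]⟩, ?_⟩
  rw [Units.val_mul, Units.val_mul, Units.val_mul, Units.inv_mk, Units.inv_mk]
  simp only
  rw [tr, tr, tr]
  exact hCW.symm

/-- For `ε² = 1` and every `d`, the vector `(ε, d)` is the first column of such a commutator. -/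
theorem pair_sq_one (ε d : R) (hε : ε * ε = 1) :
    ∃ a h : (Matrix (Fin 2) (Fin 2) R)ˣ, IsUnit ((a : Matrix (Fin 2) (Fin 2) R) - 1).det ∧
      ((a * h * a⁻¹ * h⁻¹ : (Matrix (Fin 2) (Fin 2) R)ˣ) : Matrix (Fin 2) (Fin 2) R) 0 0 = ε ∧
      ((a * h * a⁻¹ * h⁻¹ : (Matrix (Fin 2) (Fin 2) R)ˣ) : Matrix (Fin 2) (Fin 2) R) 1 0 = d := by
  refine ⟨⟨!![1 - d, ε; ε * (d - d ^ 2 - 1), d], !![d, -ε; -(ε * (d - d ^ 2 - 1)), 1 - d], ?_, ?_⟩,
    ⟨!![ε, 0; -(ε * d), 1], !![ε, 0; d, 1], ?_, ?_⟩, ?_, ?_, ?_⟩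
  · ext i j
    fin_cases i <;> fin_cases j <;> simp [Matrix.mul_apply, Fin.sum_univ_two]
    · linear_combination (-(d - d ^ 2 - 1)) * hε
    · ring
    · ring
    · linear_combination (-(d - d ^ 2 - 1)) * hε
  · ext i j
    fin_cases i <;> fin_cases j <;> simp [Matrix.mul_apply, Fin.sum_univ_two]
    · linear_combination (-(d - d ^ 2 - 1)) * hε
    · ring
    · ring
    · linear_combination (-(d - d ^ 2 - 1)) * hε
  · ext i j
    fin_cases i <;> fin_cases j <;> simp [Matrix.mul_apply, Fin.sum_univ_two, hε]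
    linear_combination (-d) * hε
  · ext i j
    fin_cases i <;> fin_cases j <;> simp [Matrix.mul_apply, Fin.sum_univ_two, hε]
    ring
  · rw [Matrix.det_fin_two]
    have : ((1 - d) - 1) * (d - 1) - ε * (ε * (d - d ^ 2 - 1)) = 1 := by
      linear_combination (-(d - d ^ 2 - 1)) * hε
    simp only [Matrix.sub_apply, Matrix.of_apply, Matrix.cons_val', Matrix.cons_val_zero,
      Matrix.cons_val_one, Matrix.one_apply_eq, ne_eq, zero_ne_one, not_false_eq_true,
      one_ne_zero, Matrix.one_apply_ne, sub_zero, Matrix.cons_val_fin_one]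
    rw [this]; exact isUnit_one
  · simp [Matrix.mul_apply, Fin.sum_univ_two, Units.val_mul]
    linear_combination (ε * (1 - d + d ^ 2)) * hε
  · simp [Matrix.mul_apply, Fin.sum_univ_two, Units.val_mul]
    linear_combination (-d * (d - d ^ 2 - 1)) * hε

end Pool.Agent.H87.Comm
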